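import Pool.Agent.H13.RZ.Defs
import Pool.Agent.H41.RG.Boxes

/-!
# Project RG, phase 2 (MP_a3214d), row RZ-P1: lower bound for boxes with explicit dependence on the
modulus
-/

set_option autoImplicit false

open MvPolynomial NumberField IsDedekindDomain

namespace Pool.Agent.H13.RZ

open Pool.Agent.H13.RG Pool.Agent.H35.AN

section

variable (F : Type) [Field F] [NumberField F]

theorem rzp1_finite (M : ℕ) (α : 𝓞 F) (Y : ℝ) :
    Set.Finite {a : 𝓞 F | (M : 𝓞 F) ∣ a - α ∧ ∀ v : F →+* ℂ, ‖v (a : F)‖ ≤ Y} := by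
  have h := NumberField.Embeddings.finite_of_norm_le F ℂ Y
  have h2 : Set.Finite ((fun a : 𝓞 F => (a : F)) ⁻¹'
      {x : F | IsIntegral ℤ x ∧ ∀ φ : F →+* ℂ, ‖φ x‖ ≤ Y}) :=
    h.preimage (fun a _ b _ hab => RingOfIntegers.ext hab)
  refine h2.subset ?_
  intro a ha
  exact ⟨RingOfIntegers.isIntegral_coe a, ha.2⟩

theorem box_unif : ∃ c : ℝ, 0 < c ∧ ∀ M : ℕ, 0 < M → ∀ α : 𝓞 F, ∃ Y0 : ℝ, 1 ≤ Y0 ∧
    ∀ Y : ℝ, Y0 ≤ Y →
      Set.Finite {a : 𝓞 F | (M : 𝓞 F) ∣ a - α ∧ ∀ v : F →+* ℂ, ‖v (a : F)‖ ≤ Y} ∧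
      c * (Y / M) ^ Module.finrank ℚ F ≤
        (Set.ncard {a : 𝓞 F | (M : 𝓞 F) ∣ a - α ∧ ∀ v : F →+* ℂ, ‖v (a : F)‖ ≤ Y} : ℝ) := by
  classical
  obtain ⟨C0, hC0, hbox⟩ := Pool.Agent.H41.RG.box_lower F (s := 1) (fun _ => 1) (M := 1) one_pos
    (fun _ => 0)
  refine ⟨(1 / (2 * C0)) ^ Module.finrank ℚ F, by positivity, ?_⟩
  intro M hM α
  have hM0 : (0 : ℝ) < M := by exact_mod_cast hM
  set A : ℝ := ∑ ψ : F →+* ℂ, ‖ψ (α : F)‖ with hA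
  have hA0 : 0 ≤ A := Finset.sum_nonneg (fun ψ _ => norm_nonneg _)
  have hAφ : ∀ φ : F →+* ℂ, ‖φ (α : F)‖ ≤ A := fun φ =>
    Finset.single_le_sum (f := fun ψ : F →+* ℂ => ‖ψ (α : F)‖) (fun _ _ => norm_nonneg _)
      (Finset.mem_univ φ)
  refine ⟨2 * A + 2 * M * C0 + 1, by nlinarith [mul_pos hM0 hC0], ?_⟩
  intro Y hY
  refine ⟨rzp1_finite F M α Y, ?_⟩
  have hMC : 0 < 2 * (M : ℝ) * C0 := by positivity
  set H : ℝ := Y / (2 * M * C0) with hH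
  have hH1 : 1 ≤ H := by
    rw [hH, le_div_iff₀ hMC]
    linarith
  obtain ⟨S, hS, hcard⟩ := hbox H hH1
  have hinj : Set.InjOn (fun u : Fin 1 → 𝓞 F => α + (M : 𝓞 F) * u 0) (S : Set (Fin 1 → 𝓞 F)) := by
    intro u _ w _ huw
    have h1 : (M : 𝓞 F) * u 0 = (M : 𝓞 F) * w 0 := add_left_cancel huw
    have h2 : (M : 𝓞 F) ≠ 0 := by exact_mod_cast hM.ne'
    have h3 := mul_left_cancel₀ h2 h1
    funext i
    have hi : i = 0 := Fin.fin_one_eq_zero i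
    rw [hi]
    exact h3
  have himg : ((S.image (fun u : Fin 1 → 𝓞 F => α + (M : 𝓞 F) * u 0) : Finset (𝓞 F)) :
      Set (𝓞 F)) ⊆ {a : 𝓞 F | (M : 𝓞 F) ∣ a - α ∧ ∀ v : F →+* ℂ, ‖v (a : F)‖ ≤ Y} := by
    intro a ha
    rw [Finset.mem_coe, Finset.mem_image] at ha
    obtain ⟨u, hu, rfl⟩ := ha
    refine ⟨⟨u 0, by ring⟩, fun v => ?_⟩
    have h1 := (hS u hu 0).2 v
    have h2 : (((α + (M : 𝓞 F) * u 0 : 𝓞 F)) : F) = (α : F) + (M : F) * (u 0 : F) := by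
      push_cast
      rfl
    rw [h2, map_add, map_mul, map_natCast]
    refine (norm_add_le _ _).trans ?_
    rw [norm_mul, Complex.norm_natCast]
    have h3 : (M : ℝ) * ‖v (u 0 : F)‖ ≤ M * (C0 * H ^ 1) := mul_le_mul_of_nonneg_left h1 hM0.le
    have h4 : (M : ℝ) * (C0 * H ^ 1) = Y / 2 := by
      rw [hH]
      field_simp
    have h5 := hAφ v
    have h6 : 0 < 2 * (M : ℝ) * C0 := hMC
    linarith
  have hle : (S.card : ℝ) ≤
      (Set.ncard {a : 𝓞 F | (M : 𝓞 F) ∣ a - α ∧ ∀ v : F →+* ℂ, ‖v (a : F)‖ ≤ Y} : ℝ) := by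
    have h1 := Set.ncard_le_ncard himg (rzp1_finite F M α Y)
    rw [Set.ncard_coe_finset, Finset.card_image_of_injOn hinj] at h1
    exact_mod_cast h1
  refine le_trans ?_ hle
  refine le_trans (le_of_eq ?_) hcard
  have h1 : Module.finrank ℚ F * ∑ _i : Fin 1, 1 = Module.finrank ℚ F := by simp
  rw [h1, ← mul_pow, hH]
  congr 1
  field_simp

end

end Pool.Agent.H13.RZ
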