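import Pool.Agent.H41.RG.Pack

/-!
# Project RG, phase 2 (MP_a3214d), RZ-P2: elements of a coset of an ideal in a box
-/

set_option autoImplicit false

open NumberField

namespace Pool.Agent.H13.RZ

open Pool.Agent.H41.RG

/-- A non-zero element of an ideal has a conjugate of absolute value at least `N(I)^(1/m)`. -/
theorem rzp2_exists_le_norm (F : Type*) [Field F] [NumberField F] (I : Ideal (𝓞 F))
    (x : 𝓞 F) (hx : x ≠ 0) (hxI : x ∈ I) :
    ∃ φ : F →+* ℂ, (Ideal.absNorm I : ℝ) ^ (1 / (Module.finrank ℚ F : ℝ)) ≤ ‖φ (x : F)‖ := by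
  by_contra hcon
  push Not at hcon
  set lam : ℝ := (Ideal.absNorm I : ℝ) ^ (1 / (Module.finrank ℚ F : ℝ)) with hlam
  have hm : 0 < Module.finrank ℚ F := Module.finrank_pos
  have hlam0 : 0 ≤ lam := by positivity
  have h0 : lam ^ Module.finrank ℚ F = (Ideal.absNorm I : ℝ) := by
    rw [hlam, one_div, Real.rpow_inv_natCast_pow (Nat.cast_nonneg _) hm.ne']
  have h1 : (Ideal.absNorm I : ℝ) ≤ |(Algebra.norm ℤ x : ℝ)| := by
    have h2 : Ideal.absNorm I ∣ (Algebra.norm ℤ x).natAbs := by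
      rw [← Ideal.absNorm_span_singleton]
      exact Ideal.absNorm_dvd_absNorm_of_le ((Ideal.span_singleton_le_iff_mem I).2 hxI)
    have h3 : Algebra.norm ℤ x ≠ 0 := by
      rw [Algebra.norm_ne_zero_iff]
      exact hx
    have h4 : Ideal.absNorm I ≤ (Algebra.norm ℤ x).natAbs :=
      Nat.le_of_dvd (Int.natAbs_pos.2 h3) h2
    have h5 : (Ideal.absNorm I : ℝ) ≤ ((Algebra.norm ℤ x).natAbs : ℝ) := by exact_mod_cast h4
    rwa [Nat.cast_natAbs, Int.cast_abs] at h5
  have h3 : |(Algebra.norm ℤ x : ℝ)| = ∏ φ : F →+* ℂ, ‖φ (x : F)‖ := by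
    have h4 : (algebraMap ℚ ℂ (Algebra.norm ℚ (x : F))) = ∏ φ : F →ₐ[ℚ] ℂ, φ (x : F) :=
      Algebra.norm_eq_prod_embeddings ℚ ℂ (x : F)
    have h5 : ((Algebra.norm ℤ x : ℤ) : ℚ) = Algebra.norm ℚ (x : F) :=
      Algebra.coe_norm_int x
    rw [← h5] at h4
    have h6 : ‖((Algebra.norm ℤ x : ℤ) : ℂ)‖ = ∏ φ : F →ₐ[ℚ] ℂ, ‖φ (x : F)‖ := by
      rw [← norm_prod, ← h4]
      simp
    rw [← Complex.norm_intCast, h6]
    exact (Fintype.prod_equiv (RingHom.equivRatAlgHom (R := F) (S := ℂ)) _ _ (fun φ => rfl)).symm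
  have hne : (Finset.univ : Finset (F →+* ℂ)).Nonempty := by
    refine Finset.univ_nonempty_iff.mpr ?_
    infer_instance
  have h7 : ∏ φ : F →+* ℂ, ‖φ (x : F)‖ < (Ideal.absNorm I : ℝ) := by
    obtain ⟨φ0, _⟩ := hne
    have hx' : (x : F) ≠ 0 := fun h => hx (by exact_mod_cast h)
    calc ∏ φ : F →+* ℂ, ‖φ (x : F)‖ < ∏ φ : F →+* ℂ, lam := by
          apply Finset.prod_lt_prod
          · intro φ _
            exact norm_pos_iff.mpr ((map_ne_zero φ).mpr hx')
          · intro φ _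
            exact (hcon φ).le
          · exact ⟨φ0, Finset.mem_univ _, hcon φ0⟩
      _ = lam ^ Module.finrank ℚ F := by
          rw [Finset.prod_const, Finset.card_univ, NumberField.Embeddings.card]
      _ = _ := h0
  linarith

section

variable (F : Type) [Field F] [NumberField F]

/-- packing with the minimum `N(I)^(1/m)` -/
theorem coset_count (I : Ideal (𝓞 F)) (hI : I ≠ ⊥) {T : ℝ} (hT : 0 ≤ T) (S : Finset (𝓞 F))
    (hS : ∀ a ∈ S, ∀ v : F →+* ℂ, ‖v (a : F)‖ ≤ T) (hd : ∀ a ∈ S, ∀ b ∈ S, a - b ∈ I) :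
    (S.card : ℝ) ≤ (1 + 4 * T / (Ideal.absNorm I : ℝ) ^ (1 / (Module.finrank ℚ F : ℝ))) ^
      Module.finrank ℚ F := by
  classical
  have hI0 : 0 < (Ideal.absNorm I : ℝ) := by
    have : Ideal.absNorm I ≠ 0 := Ideal.absNorm_eq_zero_iff.not.2 hI
    exact_mod_cast Nat.pos_of_ne_zero this
  set lam : ℝ := (Ideal.absNorm I : ℝ) ^ (1 / (Module.finrank ℚ F : ℝ)) with hlam
  have hlam0 : 0 < lam := Real.rpow_pos_of_pos hI0 _
  rcases S.eq_empty_or_nonempty with hemp | ⟨a0, ha0⟩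
  · rw [hemp, Finset.card_empty, Nat.cast_zero]
    positivity
  have hne : (Finset.univ : Finset (F →+* ℂ)).Nonempty := Finset.univ_nonempty_iff.mpr
    inferInstance
  have hcl : AddSubgroup.closure ((S.image (fun a => a - a0) : Finset (𝓞 F)) : Set (𝓞 F)) ≤
      I.toAddSubgroup := by
    rw [AddSubgroup.closure_le]
    intro y hy
    rw [Finset.mem_coe, Finset.mem_image] at hy
    obtain ⟨a, ha, rfl⟩ := hy
    exact hd a ha a0 ha0
  have h := card_le_pack (G := 𝓞 F)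
    (fun x => (Finset.univ : Finset (F →+* ℂ)).sup' hne (fun φ => ‖φ (x : F)‖))
    (by
      intro x y
      apply Finset.sup'_le
      intro φ hφ
      have h1 := Finset.le_sup' (fun φ : F →+* ℂ => ‖φ (x : F)‖) hφ
      have h2 := Finset.le_sup' (fun φ : F →+* ℂ => ‖φ (y : F)‖) hφ
      have h3 : ‖φ ((x - y : 𝓞 F) : F)‖ ≤ ‖φ (x : F)‖ + ‖φ (y : F)‖ := by
        have h4 : ((x - y : 𝓞 F) : F) = (x : F) - (y : F) := rfl
        rw [h4, map_sub]
        exact norm_sub_le _ _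
      exact h3.trans (add_le_add h1 h2))
    (by
      intro N x
      have h1 : ∀ φ : F →+* ℂ, ‖φ ((N • x : 𝓞 F) : F)‖ = N * ‖φ (x : F)‖ := by
        intro φ
        have h4 : ((N • x : 𝓞 F) : F) = (N : F) * (x : F) := by
          rw [nsmul_eq_mul]
          push_cast
          rfl
        rw [h4, map_mul, map_natCast, norm_mul, Complex.norm_natCast]
      simp only [h1]
      apply le_antisymm
      · apply Finset.sup'_le
        intro φ hφ
        exact mul_le_mul_of_nonneg_left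
          (Finset.le_sup' (fun φ : F →+* ℂ => ‖φ (x : F)‖) hφ) (Nat.cast_nonneg _)
      · obtain ⟨φ, hφ, h2⟩ := Finset.exists_mem_eq_sup' hne (fun φ : F →+* ℂ => ‖φ (x : F)‖)
        rw [h2]
        exact Finset.le_sup' (fun φ : F →+* ℂ => (N : ℝ) * ‖φ (x : F)‖) hφ)
    (lam := lam) (T := 2 * T) hlam0 (by positivity) (S.image (fun a => a - a0))
    (by
      intro x hxc hx
      obtain ⟨φ, hφ⟩ := rzp2_exists_le_norm F I x hx (hcl hxc)
      exact hφ.trans (Finset.le_sup' (fun φ : F →+* ℂ => ‖φ (x : F)‖) (Finset.mem_univ φ)))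
    (by
      intro x hx
      rw [Finset.mem_image] at hx
      obtain ⟨a, ha, rfl⟩ := hx
      apply Finset.sup'_le
      intro φ _
      have h4 : ((a - a0 : 𝓞 F) : F) = (a : F) - (a0 : F) := rfl
      rw [h4, map_sub]
      refine (norm_sub_le _ _).trans ?_
      linarith [hS a ha φ, hS a0 ha0 φ])
    (Module.finrank ℚ F)
    (by
      intro n v _ hv
      have h1 := hv.fintype_card_le_finrank
      rwa [Fintype.card_fin, RingOfIntegers.rank] at h1)
  rw [Finset.card_image_of_injective S (sub_left_injective)] at h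
  refine h.trans (le_of_eq ?_)
  congr 2
  ring

/-- in this form: at most `5^m max(1, T^m / N(I))` -/
theorem coset_count' (I : Ideal (𝓞 F)) (hI : I ≠ ⊥) {T : ℝ} (hT : 0 ≤ T) (S : Finset (𝓞 F))
    (hS : ∀ a ∈ S, ∀ v : F →+* ℂ, ‖v (a : F)‖ ≤ T) (hd : ∀ a ∈ S, ∀ b ∈ S, a - b ∈ I) :
    (S.card : ℝ) ≤ 5 ^ Module.finrank ℚ F *
      max 1 (T ^ Module.finrank ℚ F / (Ideal.absNorm I : ℝ)) := by
  have hI0 : 0 < (Ideal.absNorm I : ℝ) := by
    have : Ideal.absNorm I ≠ 0 := Ideal.absNorm_eq_zero_iff.not.2 hI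
    exact_mod_cast Nat.pos_of_ne_zero this
  have hm : 0 < Module.finrank ℚ F := Module.finrank_pos
  refine (coset_count F I hI hT S hS hd).trans ?_
  set lam : ℝ := (Ideal.absNorm I : ℝ) ^ (1 / (Module.finrank ℚ F : ℝ)) with hlam
  have hlam0 : 0 < lam := Real.rpow_pos_of_pos hI0 _
  have h0 : lam ^ Module.finrank ℚ F = (Ideal.absNorm I : ℝ) := by
    rw [hlam, one_div, Real.rpow_inv_natCast_pow hI0.le hm.ne']
  rw [← h0, ← div_pow]
  rcases le_total (T / lam) 1 with h1 | h1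
  · refine le_trans (pow_le_pow_left₀ (by positivity) (?_ : _ ≤ (5 : ℝ)) _)
      (le_mul_of_one_le_right (by positivity) (le_max_left _ _))
    rw [mul_div_assoc]
    linarith
  · refine le_trans (pow_le_pow_left₀ (by positivity) (?_ : _ ≤ 5 * (T / lam)) _) ?_
    · rw [mul_div_assoc]
      linarith
    · rw [mul_pow]
      exact mul_le_mul_of_nonneg_left (le_max_right _ _) (by positivity)

end

end Pool.Agent.H13.RZ
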