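import Pool.Agent.H13.RG.Defs

/-!
# Project RG, phase 2 (scalar kernels): definitions
-/

set_option autoImplicit false

open MvPolynomial NumberField IsDedekindDomain

namespace Pool.Agent.H13.RZ

open Pool.Agent.H13.RG

/-- No prime outside `M` divides all coordinates of `u`. -/
def Prim {F : Type} [Field F] [NumberField F] {s : ℕ} (M : ℕ) (u : Fin s → 𝓞 F) : Prop :=
  ∀ p : HeightOneSpectrum (𝓞 F), (M : 𝓞 F) ∉ p.asIdeal → ∃ i, u i ∉ p.asIdeal

/-- Parameters with degrees `d` (the same as `Par` with `d = X.I.d`). -/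
def ParD {F : Type} [Field F] [NumberField F] {s : ℕ} (d : Fin s → ℕ) (M : ℕ)
    (α : Fin s → 𝓞 F) (H : ℝ) : Set (Fin s → 𝓞 F) :=
  {u | ∀ i, (M : 𝓞 F) ∣ u i - α i ∧ ∀ v : F →+* ℂ, ‖v (u i : F)‖ ≤ H ^ d i}

section

variable {F : Type} [Field F] {Ω : Type} [Field Ω] [Algebra F Ω] {s n : ℕ} {G : Type} [Group G]
  [Fintype G]

/-- The homomorphisms of level `H` with a parameter in `A`. -/
def HomsIn (Ω : Type) [Field Ω] [Algebra F Ω] (X : Core F s n G) (A : Set (Fin s → 𝓞 F)) :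
    Set ((Ω ≃ₐ[F] Ω) →* G) :=
  {h | Function.Surjective h ∧ ∃ u ∈ A, ∃ x : Fin s → Ω,
    X.I.fv (iO F Ω X.N) x = (fun i => algebraMap F Ω (u i : F)) ∧ Twisted X h x}

/-- The group element `z` acts as the scalar `c`. -/
def ActsBy (X : Core F s n G) (z : G) (c : F) : Prop :=
  ∀ v : Fin s → F, X.I.act (RN F X.N).subtype z v = c • v

end

end Pool.Agent.H13.RZ
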