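import Mathlib

/-!
# RZ-K5: Hilbert 90 for a character, finite level (project RG phase 2)
-/

set_option autoImplicit false

namespace Pool.Agent.H13.RZ

open IntermediateField

/-- a finite Galois extension containing finitely many elements -/
theorem exists_galois {F Ω : Type} [Field F] [NumberField F] [Field Ω] [Algebra F Ω]
    [IsAlgClosure F Ω] (S : Finset Ω) : ∃ (L : IntermediateField F Ω) (_ : NumberField L)
      (_ : IsGalois F L), ∀ y ∈ S, y ∈ L := by
  haveI : Algebra.IsAlgebraic F Ω := IsAlgClosure.isAlgebraic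
  haveI : IsAlgClosed Ω := IsAlgClosure.isAlgClosed F
  haveI : Normal F Ω := IsAlgClosure.normal F Ω
  haveI : CharZero Ω := charZero_of_injective_algebraMap (algebraMap F Ω).injective
  haveI : FiniteDimensional F (adjoin F (S : Set Ω)) :=
    finiteDimensional_adjoin fun x _ => (Algebra.IsAlgebraic.isAlgebraic x).isIntegral
  let L : IntermediateField F Ω := normalClosure F (adjoin F (S : Set Ω)) Ω
  haveI hfin : FiniteDimensional F L := normalClosure.is_finiteDimensional F _ Ω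
  haveI : Normal F L := normalClosure.normal F _ Ω
  haveI : IsGalois F L := IsGalois.mk
  refine ⟨L, NumberField.of_module_finite F L, inferInstance, fun y hy => ?_⟩
  have h1 : adjoin F (S : Set Ω) ≤ L := le_normalClosure _
  exact h1 (subset_adjoin F _ hy)

/-- an `F^*`-valued character whose kernel fixes a finite set of elements of `Ω` -/
theorem exists_delta {F Ω : Type} [Field F] [NumberField F] [Field Ω] [Algebra F Ω]
    [IsAlgClosure F Ω] (χ : (Ω ≃ₐ[F] Ω) →* Fˣ) (S : Finset Ω)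
    (hχ : ∀ σ : Ω ≃ₐ[F] Ω, (∀ y ∈ S, σ y = y) → χ σ = 1) :
    ∃ δ : Ω, δ ≠ 0 ∧ ∀ σ : Ω ≃ₐ[F] Ω, σ δ = algebraMap F Ω ((χ σ : F)) * δ := by
  classical
  obtain ⟨L, _, _, hL⟩ := exists_galois (F := F) S
  haveI : Algebra.IsAlgebraic F Ω := IsAlgClosure.isAlgebraic
  haveI : Normal F Ω := IsAlgClosure.normal F Ω
  have hsurj : Function.Surjective (AlgEquiv.restrictNormalHom (F := F) (K₁ := Ω) L) :=
    AlgEquiv.restrictNormalHom_surjective Ω
  have hker : (AlgEquiv.restrictNormalHom (F := F) (K₁ := Ω) L).ker ≤ χ.ker := by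
    intro σ hσ
    rw [MonoidHom.mem_ker] at hσ ⊢
    refine hχ σ fun y hy => ?_
    have h1 := AlgEquiv.restrictNormal_commutes σ L ⟨y, hL y hy⟩
    have h2 : σ.restrictNormal L = 1 := hσ
    rw [h2] at h1
    exact h1.symm
  let ψ : (L ≃ₐ[F] L) →* Fˣ :=
    (AlgEquiv.restrictNormalHom (F := F) (K₁ := Ω) L).liftOfSurjective hsurj ⟨χ, hker⟩
  have hψ : ∀ σ : Ω ≃ₐ[F] Ω, ψ (σ.restrictNormal L) = χ σ := fun σ =>
    (AlgEquiv.restrictNormalHom (F := F) (K₁ := Ω) L).liftOfRightInverse_comp_apply _ _ ⟨χ, hker⟩ σ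
  haveI : Fintype (L ≃ₐ[F] L) := Fintype.ofFinite _
  -- independence of the automorphisms
  have hex : ∃ c : L, ∑ τ : L ≃ₐ[F] L, algebraMap F L ((ψ τ)⁻¹ : Fˣ) * τ c ≠ 0 := by
    by_contra hcon
    push Not at hcon
    have hind := linearIndependent_monoidHom L L
    have hinj : Function.Injective (fun τ : L ≃ₐ[F] L => (τ : L →* L)) := by
      intro τ τ' h
      ext x
      have := DFunLike.congr_fun h x
      exact congrArg Subtype.val this
    have hind2 := hind.comp (fun τ : L ≃ₐ[F] L => (τ : L →* L)) hinj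
    rw [Fintype.linearIndependent_iff] at hind2
    have h1 := hind2 (fun τ => algebraMap F L ((ψ τ)⁻¹ : Fˣ)) (by
      funext c
      simpa [Finset.sum_apply] using hcon c) 1
    rw [map_one, inv_one, Units.val_one, map_one] at h1
    exact one_ne_zero h1
  obtain ⟨c, hc⟩ := hex
  set d : L := ∑ τ : L ≃ₐ[F] L, algebraMap F L ((ψ τ)⁻¹ : Fˣ) * τ c with hd
  refine ⟨(d : Ω), fun h => hc (Subtype.ext h), fun σ => ?_⟩
  set τ₀ := σ.restrictNormal L with hτ₀
  have h1 : σ (d : Ω) = ((τ₀ d : L) : Ω) := (AlgEquiv.restrictNormal_commutes σ L d).symm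
  have h2 : τ₀ d = algebraMap F L (ψ τ₀ : Fˣ) * d := by
    rw [hd, map_sum, Finset.mul_sum]
    rw [← Equiv.sum_comp (Equiv.mulLeft τ₀)
      (fun τ => algebraMap F L (ψ τ₀ : Fˣ) * (algebraMap F L ((ψ τ)⁻¹ : Fˣ) * τ c))]
    refine Finset.sum_congr rfl fun τ _ => ?_
    rw [map_mul, AlgEquiv.commutes, Equiv.coe_mulLeft, map_mul, mul_inv]
    have h3 : algebraMap F L (ψ τ₀ : Fˣ) * (algebraMap F L (((ψ τ₀)⁻¹ * (ψ τ)⁻¹ : Fˣ) : F) *
        (τ₀ * τ) c) = algebraMap F L ((ψ τ₀ : Fˣ) * ((ψ τ₀)⁻¹ : Fˣ) : F) *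
          (algebraMap F L ((ψ τ)⁻¹ : Fˣ) * (τ₀ * τ) c) := by
      rw [Units.val_mul, map_mul, map_mul]; ring
    rw [h3, Units.mul_inv, map_one, one_mul]
    rfl
  rw [h1, h2, ← hψ σ]
  rfl

end Pool.Agent.H13.RZ
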