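import Mathlib

/-!
# Project RG, phase 2 (scalar kernels), row RZ-K1: inertia outside the discriminant fixes the field
-/

set_option autoImplicit false

open NumberField

namespace Pool.Agent.H13.RZ

theorem inertia_fixes {F Ω : Type} [Field F] [NumberField F] [Field Ω] [Algebra F Ω]
    [IsAlgClosure F Ω] (K : IntermediateField F Ω) [NumberField K] {κ : Type} [Field κ]
    (w : integralClosure ℤ Ω →+* κ) (r : ℕ) (hr : r.Prime) (hwr : w r = 0)
    (hd : ¬ (r : ℤ) ∣ NumberField.discr K) (σ : Ω ≃ₐ[F] Ω) (φ : K →ₐ[F] Ω)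
    (hσ : ∀ (y : 𝓞 K) (z z' : integralClosure ℤ Ω), (z : Ω) = φ y → (z' : Ω) = σ (φ y) →
      w z' = w z) (y : K) : σ (φ y) = φ y := by
  classical
  have : CharZero Ω := charZero_of_injective_algebraMap (algebraMap F Ω).injective
  have : IsAlgClosed Ω := IsAlgClosure.isAlgClosed F
  -- the two embeddings
  let τ1 : K →ₐ[ℚ] Ω := RingHom.toRatAlgHom (φ : K →+* Ω)
  let τ2 : K →ₐ[ℚ] Ω := RingHom.toRatAlgHom ((σ : Ω →+* Ω).comp (φ : K →+* Ω))
  have h1 : ∀ y : K, τ1 y = φ y := fun y => rfl
  have h2 : ∀ y : K, τ2 y = σ (φ y) := fun y => rfl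
  by_contra hne
  have hτ : τ1 ≠ τ2 := by
    intro h
    apply hne
    rw [← h2 y, ← h, h1]
  -- the integral basis and the numbering of the embeddings
  have hcard : Fintype.card (Module.Free.ChooseBasisIndex ℤ (𝓞 K)) =
      Fintype.card (K →ₐ[ℚ] Ω) := by
    rw [AlgHom.card ℚ K Ω, ← RingOfIntegers.rank K, Module.finrank_eq_card_chooseBasisIndex]
  let e : Module.Free.ChooseBasisIndex ℤ (𝓞 K) ≃ (K →ₐ[ℚ] Ω) := Fintype.equivOfCardEq hcard
  have hint : ∀ (i j : Module.Free.ChooseBasisIndex ℤ (𝓞 K)),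
      IsIntegral ℤ (e j ((RingOfIntegers.basis K i : 𝓞 K) : K)) := by
    intro i j
    exact (RingOfIntegers.isIntegral_coe (RingOfIntegers.basis K i)).map
      ((e j : K →+* Ω).toIntAlgHom)
  let A : Matrix (Module.Free.ChooseBasisIndex ℤ (𝓞 K)) (Module.Free.ChooseBasisIndex ℤ (𝓞 K))
      (integralClosure ℤ Ω) := fun i j => ⟨e j ((RingOfIntegers.basis K i : 𝓞 K) : K), hint i j⟩
  have hA : ((A.det : integralClosure ℤ Ω) : Ω) =
      (Algebra.embeddingsMatrixReindex ℚ Ω (integralBasis K) e).det := by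
    have := RingHom.map_det (algebraMap (integralClosure ℤ Ω) Ω) A
    refine this.trans ?_
    congr 1
    ext i j
    simp [A, Algebra.embeddingsMatrixReindex, Algebra.embeddingsMatrix, integralBasis_apply]
  have hdisc := Algebra.discr_eq_det_embeddingsMatrixReindex_pow_two ℚ Ω (integralBasis K) e
  rw [← coe_discr, ← hA] at hdisc
  have hsq : A.det ^ 2 = ((NumberField.discr K : ℤ) : integralClosure ℤ Ω) := by
    apply Subtype.ext
    rw [SubmonoidClass.coe_pow, ← hdisc]
    simp
  -- two equal columns modulo `w`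
  have hcol : w A.det = 0 := by
    rw [RingHom.map_det]
    have hij : e.symm τ1 ≠ e.symm τ2 := fun h => hτ (e.symm.injective h)
    apply Matrix.det_zero_of_column_eq hij
    intro i
    simp only [RingHom.mapMatrix_apply, Matrix.map_apply, A]
    refine (hσ (RingOfIntegers.basis K i) _ _ ?_ ?_).symm
    · simp only [Equiv.apply_symm_apply]
      rfl
    · simp only [Equiv.apply_symm_apply]
      rfl
  have hz : ((NumberField.discr K : ℤ) : κ) = 0 := by
    have := congrArg w hsq
    rw [map_pow, hcol, map_intCast] at this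
    rw [← this]
    ring
  have hrz : ((r : ℤ) : κ) = 0 := by
    rw [map_natCast] at hwr
    exact_mod_cast hwr
  have hcop : IsCoprime (r : ℤ) (NumberField.discr K) :=
    (Nat.prime_iff_prime_int.mp hr).coprime_iff_not_dvd.mpr hd
  obtain ⟨a, b, hab⟩ := hcop
  have : ((a * r + b * NumberField.discr K : ℤ) : κ) = ((1 : ℤ) : κ) := by rw [hab]
  rw [Int.cast_add, Int.cast_mul, Int.cast_mul, hz, hrz] at this
  simp at this

end Pool.Agent.H13.RZ
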