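import Pool.Agent.H13.RZ.Defs
import Pool.Agent.H35.AN.Val

/-!
# Project RG phase 2, row RZ-K4: few classes modulo `e`-th powers
-/

set_option autoImplicit false

open MvPolynomial NumberField IsDedekindDomain

namespace Pool.Agent.H13.RZ

open Pool.Agent.H13.RG Pool.Agent.H35.AN
open scoped nonZeroDivisors

section Classes

variable {F : Type} [Field F] [NumberField F]

theorem rzk4_count_int (P : HeightOneSpectrum (𝓞 F)) {r : 𝓞 F} (hr : r ≠ 0) :
    FractionalIdeal.count F P (FractionalIdeal.spanSingleton (𝓞 F)⁰ (algebraMap (𝓞 F) F r)) =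
      ord P (algebraMap (𝓞 F) F r) := by
  classical
  have h1 : (Ideal.span {r} : Ideal (𝓞 F)) ≠ 0 := by
    rw [Ne, Ideal.zero_eq_bot, Ideal.span_singleton_eq_bot]
    exact hr
  rw [← FractionalIdeal.coeIdeal_span_singleton, FractionalIdeal.count_coe F P h1]
  unfold ord
  rw [HeightOneSpectrum.valuation_of_algebraMap, HeightOneSpectrum.intValuation_if_neg _ hr,
    WithZero.log_exp, neg_neg]

theorem rzk4_count (P : HeightOneSpectrum (𝓞 F)) {a : F} (ha : a ≠ 0) :
    FractionalIdeal.count F P (FractionalIdeal.spanSingleton (𝓞 F)⁰ a) = ord P a := by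
  obtain ⟨x, y, hy, hxy⟩ := IsFractionRing.div_surjective (A := 𝓞 F) a
  have hy0 : y ≠ 0 := nonZeroDivisors.ne_zero hy
  have hy1 : algebraMap (𝓞 F) F y ≠ 0 := by
    rw [Ne, map_eq_zero_iff _ (FaithfulSMul.algebraMap_injective (𝓞 F) F)]
    exact hy0
  have hx0 : x ≠ 0 := by
    rintro rfl
    rw [map_zero, zero_div] at hxy
    exact ha hxy.symm
  have hx1 : algebraMap (𝓞 F) F x ≠ 0 := by
    rw [Ne, map_eq_zero_iff _ (FaithfulSMul.algebraMap_injective (𝓞 F) F)]
    exact hx0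
  have h1 : FractionalIdeal.spanSingleton (𝓞 F)⁰ (algebraMap (𝓞 F) F x) =
      FractionalIdeal.spanSingleton (𝓞 F)⁰ a *
        FractionalIdeal.spanSingleton (𝓞 F)⁰ (algebraMap (𝓞 F) F y) := by
    rw [FractionalIdeal.spanSingleton_mul_spanSingleton, ← hxy, div_mul_cancel₀ _ hy1]
  have h2 := congrArg (FractionalIdeal.count F P) h1
  rw [FractionalIdeal.count_mul F P (FractionalIdeal.spanSingleton_ne_zero_iff.mpr ha)
    (FractionalIdeal.spanSingleton_ne_zero_iff.mpr hy1), rzk4_count_int P hx0,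
    rzk4_count_int P hy0] at h2
  have h3 : ord P (algebraMap (𝓞 F) F x) = ord P a + ord P (algebraMap (𝓞 F) F y) := by
    rw [← ord_mul P ha hy1, ← hxy, div_mul_cancel₀ _ hy1]
  omega

/-- an element all whose valuations are divisible by `e` generates an `e`-th power -/
theorem rzk4_root {e : ℕ} {a : F} (ha : a ≠ 0)
    (h : ∀ p : HeightOneSpectrum (𝓞 F), (e : ℤ) ∣ ord p a) :
    ∃ I : (FractionalIdeal (𝓞 F)⁰ F)ˣ,
      (I : FractionalIdeal (𝓞 F)⁰ F) ^ e = FractionalIdeal.spanSingleton (𝓞 F)⁰ a := by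
  classical
  have hne : FractionalIdeal.spanSingleton (𝓞 F)⁰ a ≠ 0 :=
    FractionalIdeal.spanSingleton_ne_zero_iff.mpr ha
  choose c hc using h
  have hfin : {p : HeightOneSpectrum (𝓞 F) | ord p a ≠ 0}.Finite := by
    have h1 := FractionalIdeal.finite_factors (FractionalIdeal.spanSingleton (𝓞 F)⁰ a)
    rw [Filter.eventually_cofinite] at h1
    refine h1.subset fun p hp => ?_
    change ¬ FractionalIdeal.count F p _ = 0
    rw [rzk4_count p ha]
    exact hp
  let E : HeightOneSpectrum (𝓞 F) → ℤ := fun p => if ord p a = 0 then 0 else c p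
  have hE : ∀ p, (e : ℤ) * E p = ord p a := by
    intro p
    change (e : ℤ) * (if ord p a = 0 then 0 else c p) = ord p a
    split_ifs with h0
    · rw [mul_zero, h0]
    · exact (hc p).symm
  have hEs : ∀ p, p ∉ hfin.toFinset → E p = 0 := by
    intro p hp
    rw [Set.Finite.mem_toFinset, Set.mem_ofPred_eq, not_not] at hp
    change (if ord p a = 0 then 0 else c p) = 0
    rw [if_pos hp]
  let f : HeightOneSpectrum (𝓞 F) →₀ ℤ :=
    Finsupp.onFinset hfin.toFinset E (fun p hp => by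
      by_contra hcon
      exact hp (hEs p hcon))
  have hf : ∀ p, f p = E p := fun p => rfl
  have hI0 : (f.prod fun p n => (p.asIdeal : FractionalIdeal (𝓞 F)⁰ F) ^ n) ≠ 0 := by
    rw [Finsupp.prod, Finset.prod_ne_zero_iff]
    exact fun p _ => zpow_ne_zero _ (FractionalIdeal.coeIdeal_ne_zero.mpr p.ne_bot)
  refine ⟨Units.mk0 _ hI0, ?_⟩
  rw [Units.val_mk0]
  have hI1 := pow_ne_zero e hI0
  rw [← FractionalIdeal.finprod_heightOneSpectrum_factorization' F hI1,
    ← FractionalIdeal.finprod_heightOneSpectrum_factorization' F hne]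
  refine finprod_congr fun p => ?_
  rw [FractionalIdeal.count_pow, FractionalIdeal.count_finsuppProd, rzk4_count p ha, hf, hE]

/-- units modulo `e`-th powers -/
theorem rzk4_units (F : Type) [Field F] [NumberField F] {e : ℕ} (he : 0 < e) :
    Finite ((𝓞 F)ˣ ⧸ (powMonoidHom e : (𝓞 F)ˣ →* (𝓞 F)ˣ).range) := by
  have : Group.FG (𝓞 F)ˣ := Group.fg_iff_monoid_fg.mpr inferInstance
  have : Group.FG ((𝓞 F)ˣ ⧸ (powMonoidHom e : (𝓞 F)ˣ →* (𝓞 F)ˣ).range) := inferInstance
  refine CommGroup.finite_of_fg_isMulTorsion _ ?_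
  intro x
  obtain ⟨y, rfl⟩ := QuotientGroup.mk_surjective x
  rw [isOfFinOrder_iff_pow_eq_one]
  refine ⟨e, he, ?_⟩
  rw [← QuotientGroup.mk_pow, QuotientGroup.eq_one_iff]
  exact ⟨y, rfl⟩

/-- two elements which generate `e`-th powers of ideals in the same class -/
theorem rzk4_same_class {e : ℕ} {a b : F} (ha : a ≠ 0) (hb : b ≠ 0)
    {I J : (FractionalIdeal (𝓞 F)⁰ F)ˣ}
    (hI : (I : FractionalIdeal (𝓞 F)⁰ F) ^ e = FractionalIdeal.spanSingleton (𝓞 F)⁰ a)
    (hJ : (J : FractionalIdeal (𝓞 F)⁰ F) ^ e = FractionalIdeal.spanSingleton (𝓞 F)⁰ b)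
    (h : ClassGroup.mk F I = ClassGroup.mk F J) :
    ∃ (c : F) (u : (𝓞 F)ˣ), c ≠ 0 ∧ a = c ^ e * b * (algebraMap (𝓞 F) F u) := by
  have h1 : ClassGroup.mk F (I * J⁻¹) = 1 := by
    rw [map_mul, map_inv, h, mul_inv_cancel]
  rw [ClassGroup.mk_eq_one_iff] at h1
  obtain ⟨c, hc⟩ := h1
  have h2 : ((I * J⁻¹ : (FractionalIdeal (𝓞 F)⁰ F)ˣ) : FractionalIdeal (𝓞 F)⁰ F) =
      FractionalIdeal.spanSingleton (𝓞 F)⁰ c := by
    apply FractionalIdeal.coeToSubmodule_injective
    change ((I * J⁻¹ : (FractionalIdeal (𝓞 F)⁰ F)ˣ) : Submodule (𝓞 F) F) =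
      ((FractionalIdeal.spanSingleton (𝓞 F)⁰ c : FractionalIdeal (𝓞 F)⁰ F) : Submodule (𝓞 F) F)
    rw [hc, FractionalIdeal.coe_spanSingleton]
  have h3 : (I : FractionalIdeal (𝓞 F)⁰ F) =
      FractionalIdeal.spanSingleton (𝓞 F)⁰ c * (J : FractionalIdeal (𝓞 F)⁰ F) := by
    rw [← h2, Units.val_mul, mul_assoc, Units.inv_mul, mul_one]
  have hc0 : c ≠ 0 := by
    rintro rfl
    rw [FractionalIdeal.spanSingleton_zero, zero_mul] at h3
    exact I.ne_zero h3
  have h4 : FractionalIdeal.spanSingleton (𝓞 F)⁰ a =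
      FractionalIdeal.spanSingleton (𝓞 F)⁰ (c ^ e * b) := by
    rw [← hI, h3, mul_pow, hJ, FractionalIdeal.spanSingleton_pow,
      FractionalIdeal.spanSingleton_mul_spanSingleton]
  have h5 : c ^ e * b ≠ 0 := mul_ne_zero (pow_ne_zero _ hc0) hb
  -- the quotient is a unit
  have key : ∀ x y : F, y ≠ 0 → FractionalIdeal.spanSingleton (𝓞 F)⁰ x =
      FractionalIdeal.spanSingleton (𝓞 F)⁰ y → ∃ z : 𝓞 F, x = y * algebraMap (𝓞 F) F z := by
    intro x y _ hxy
    have hx : x ∈ FractionalIdeal.spanSingleton (𝓞 F)⁰ y := by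
      rw [← hxy]
      exact FractionalIdeal.mem_spanSingleton_self _ _
    rw [FractionalIdeal.mem_spanSingleton] at hx
    obtain ⟨z, hz⟩ := hx
    refine ⟨z, ?_⟩
    rw [← hz, Algebra.smul_def, mul_comm]
  obtain ⟨z, hz⟩ := key a (c ^ e * b) h5 h4
  obtain ⟨w, hw⟩ := key (c ^ e * b) a ha h4.symm
  have hzw : z * w = 1 := by
    apply FaithfulSMul.algebraMap_injective (𝓞 F) F
    rw [map_mul, map_one]
    have h6 : a * (algebraMap (𝓞 F) F w * algebraMap (𝓞 F) F z) = a * 1 := by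
      rw [← mul_assoc, ← hw, ← hz, mul_one]
    rw [mul_comm]
    exact mul_left_cancel₀ ha h6
  refine ⟨c, Units.mkOfMulEqOne z w hzw, hc0, ?_⟩
  rw [Units.val_mkOfMulEqOne]
  exact hz

/-- the case `S = ∅` -/
theorem rzk4_base (F : Type) [Field F] [NumberField F] {e : ℕ} (he : 0 < e) :
    ∃ C : ℕ, 0 < C ∧ ∀ T : Finset F,
      (∀ a ∈ T, a ≠ 0 ∧ ∀ p : HeightOneSpectrum (𝓞 F), (e : ℤ) ∣ ord p a) →
      (∀ a ∈ T, ∀ b ∈ T, (∃ c : F, a = c ^ e * b) → a = b) →
      T.card ≤ C := by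
  classical
  have := rzk4_units F he
  have := Fintype.ofFinite ((𝓞 F)ˣ ⧸ (powMonoidHom e : (𝓞 F)ˣ →* (𝓞 F)ˣ).range)
  refine ⟨Fintype.card ((𝓞 F)ˣ ⧸ (powMonoidHom e : (𝓞 F)ˣ →* (𝓞 F)ˣ).range) *
    Fintype.card (ClassGroup (𝓞 F)), Nat.mul_pos Fintype.card_pos Fintype.card_pos, ?_⟩
  intro T hT hinj
  let I : F → (FractionalIdeal (𝓞 F)⁰ F)ˣ := fun a =>
    if h : a ≠ 0 ∧ ∀ p : HeightOneSpectrum (𝓞 F), (e : ℤ) ∣ ord p a then
      Classical.choose (rzk4_root h.1 h.2) else 1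
  have hI : ∀ a ∈ T, ((I a : (FractionalIdeal (𝓞 F)⁰ F)ˣ) : FractionalIdeal (𝓞 F)⁰ F) ^ e =
      FractionalIdeal.spanSingleton (𝓞 F)⁰ a := by
    intro a ha
    have h := hT a ha
    change (((if h : a ≠ 0 ∧ ∀ p : HeightOneSpectrum (𝓞 F), (e : ℤ) ∣ ord p a then
      Classical.choose (rzk4_root h.1 h.2) else 1) : (FractionalIdeal (𝓞 F)⁰ F)ˣ) :
        FractionalIdeal (𝓞 F)⁰ F) ^ e = _
    rw [dif_pos h]
    exact Classical.choose_spec (rzk4_root h.1 h.2)
  have hcard := Finset.card_le_mul_card_image (f := fun a => ClassGroup.mk F (I a)) T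
    (Fintype.card ((𝓞 F)ˣ ⧸ (powMonoidHom e : (𝓞 F)ˣ →* (𝓞 F)ˣ).range)) (by
      intro k _
      rcases (T.filter fun a => ClassGroup.mk F (I a) = k).eq_empty_or_nonempty with h0 | ⟨b, hb⟩
      · rw [h0, Finset.card_empty]
        exact Nat.zero_le _
      · rw [Finset.mem_filter] at hb
        have h1 : ∀ a : F, ∃ u : (𝓞 F)ˣ, a ∈ T → ClassGroup.mk F (I a) = k →
            ∃ c : F, c ≠ 0 ∧ a = c ^ e * b * (algebraMap (𝓞 F) F u) := by
          intro a
          by_cases ha : a ∈ T ∧ ClassGroup.mk F (I a) = k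
          · obtain ⟨c, u, hc, hcu⟩ := rzk4_same_class (hT a ha.1).1 (hT b hb.1).1 (hI a ha.1)
              (hI b hb.1) (ha.2.trans hb.2.symm)
            exact ⟨u, fun _ _ => ⟨c, hc, hcu⟩⟩
          · exact ⟨1, fun h2 h3 => absurd ⟨h2, h3⟩ ha⟩
        choose u hu using h1
        rw [← Finset.card_univ]
        refine Finset.card_le_card_of_injOn
          (fun a => (QuotientGroup.mk (u a) :
            (𝓞 F)ˣ ⧸ (powMonoidHom e : (𝓞 F)ˣ →* (𝓞 F)ˣ).range))
          (fun a _ => Finset.mem_coe.mpr (Finset.mem_univ _)) ?_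
        intro a ha a' ha' haa
        rw [Finset.mem_coe, Finset.mem_filter] at ha ha'
        obtain ⟨c, hc, hca⟩ := hu a ha.1 ha.2
        obtain ⟨c', hc', hca'⟩ := hu a' ha'.1 ha'.2
        have haa' := QuotientGroup.eq.mp haa
        obtain ⟨v, hv⟩ := haa'
        rw [powMonoidHom_apply] at hv
        refine (hinj a' ha'.1 a ha.1 ⟨c' / c * algebraMap (𝓞 F) F v, ?_⟩).symm
        have hv' : algebraMap (𝓞 F) F (u a') =
            algebraMap (𝓞 F) F (u a) * (algebraMap (𝓞 F) F v) ^ e := by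
          rw [← map_pow, ← map_mul]
          congr 1
          have h2 : u a' = u a * v ^ e := by rw [hv, mul_inv_cancel_left]
          rw [h2, Units.val_mul, Units.val_pow_eq_pow_val]
        rw [hca, hca', hv', mul_pow, div_pow]
        have hce : c ^ e ≠ 0 := pow_ne_zero _ hc
        field_simp)
  refine hcard.trans (Nat.mul_le_mul_left _ ?_)
  exact Finset.card_le_univ _

/-! ### RZ-K4 KummerClasses.lean: few classes modulo e-th powers -/

theorem kummer_classes (F : Type) [Field F] [NumberField F] {e : ℕ} (he : 0 < e) :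
    ∃ C : ℕ, 0 < C ∧ ∀ (S : Finset (HeightOneSpectrum (𝓞 F))) (T : Finset F),
      (∀ a ∈ T, a ≠ 0 ∧ ∀ p : HeightOneSpectrum (𝓞 F), p ∉ S → (e : ℤ) ∣ ord p a) →
      (∀ a ∈ T, ∀ b ∈ T, (∃ c : F, a = c ^ e * b) → a = b) →
      T.card ≤ C * e ^ S.card := by
  classical
  obtain ⟨C, hC, hbase⟩ := rzk4_base F he
  have : NeZero e := ⟨he.ne'⟩
  refine ⟨C, hC, fun S T hT hinj => ?_⟩
  have hcard := Finset.card_le_mul_card_image
    (f := fun a => fun p : S => ((ord (p : HeightOneSpectrum (𝓞 F)) a : ℤ) : ZMod e)) T C (by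
      intro k _
      set T' := T.filter fun a =>
        (fun p : S => ((ord (p : HeightOneSpectrum (𝓞 F)) a : ℤ) : ZMod e)) = k with hT'
      rcases T'.eq_empty_or_nonempty with h0 | ⟨b, hb⟩
      · rw [h0, Finset.card_empty]
        exact Nat.zero_le _
      · have hb' := hb
        rw [hT', Finset.mem_filter] at hb'
        have hb0 : b ≠ 0 := (hT b hb'.1).1
        have h1 : Function.Injective (fun a : F => a / b) := by
          intro x y hxy
          exact (div_left_inj' hb0).mp hxy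
        rw [← Finset.card_image_of_injective T' h1]
        apply hbase
        · intro x hx
          rw [Finset.mem_image] at hx
          obtain ⟨a, ha, rfl⟩ := hx
          rw [hT', Finset.mem_filter] at ha
          have ha0 : a ≠ 0 := (hT a ha.1).1
          refine ⟨div_ne_zero ha0 hb0, fun p => ?_⟩
          rw [ord_div p ha0 hb0]
          by_cases hp : p ∈ S
          · have h2 := congrFun (ha.2.trans hb'.2.symm) ⟨p, hp⟩
            have h3 : ((ord p a - ord p b : ℤ) : ZMod e) = 0 := by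
              rw [Int.cast_sub, sub_eq_zero]
              exact h2
            exact (ZMod.intCast_zmod_eq_zero_iff_dvd _ _).mp h3
          · exact dvd_sub ((hT a ha.1).2 p hp) ((hT b hb'.1).2 p hp)
        · intro x hx y hy hxy
          rw [Finset.mem_image] at hx hy
          obtain ⟨a, ha, rfl⟩ := hx
          obtain ⟨a', ha', rfl⟩ := hy
          rw [hT', Finset.mem_filter] at ha ha'
          obtain ⟨c, hc⟩ := hxy
          have h4 : a = a' := hinj a ha.1 a' ha'.1 ⟨c, by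
            field_simp at hc
            exact hc⟩
          rw [h4])
  refine hcard.trans (Nat.mul_le_mul_left _ ?_)
  refine (Finset.card_le_univ _).trans ?_
  rw [Fintype.card_fun, ZMod.card, Fintype.card_coe]

end Classes

end Pool.Agent.H13.RZ
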