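import Pool.Agent.H13.RZ.Defs
import Pool.Agent.H35.AN.Inert
import Pool.Agent.H35.AN.Tower

/-!
# Project RG (MP_a3214d), phase 2, row RZ-K3: valuations of `a = δ^e`
-/

set_option autoImplicit false

open MvPolynomial NumberField IsDedekindDomain

namespace Pool.Agent.H13.RZ

open Pool.Agent.H13.RG Pool.Agent.H35.AN

theorem rzk3_card {k L : Type} [Field k] [NumberField k] [Field L] [NumberField L]
    [Algebra k L] [IsGalois k L] (P : HeightOneSpectrum (𝓞 L)) :
    Nat.card (P.asIdeal.inertia (L ≃ₐ[k] L)) = erel k P := by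
  have hmax : P.asIdeal.IsMaximal := P.isMaximal
  have hpmax : (P.asIdeal.under (𝓞 k)).IsMaximal := Ideal.IsMaximal.under (𝓞 k) P.asIdeal
  have hpne : P.asIdeal.under (𝓞 k) ≠ ⊥ := Ideal.under_ne_bot (𝓞 k) P.ne_bot
  have hfin : Finite (𝓞 k ⧸ P.asIdeal.under (𝓞 k)) :=
    Ring.HasFiniteQuotients.finiteQuotient hpne
  rw [Ideal.card_inertia_eq_ramificationIdxIn (G := L ≃ₐ[k] L) (P.asIdeal.under (𝓞 k))
      P.asIdeal, Ideal.ramificationIdxIn_eq_ramificationIdx (P.asIdeal.under (𝓞 k)) P.asIdeal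
      (L ≃ₐ[k] L)]
  rfl

theorem kummer_val {F L : Type} [Field F] [NumberField F] [Field L] [NumberField L]
    [Algebra F L] [IsGalois F L] (P : HeightOneSpectrum (𝓞 L)) {δ : L} (hδ : δ ≠ 0) {a : F}
    {e : ℕ} (ha : δ ^ e = algebraMap F L a)
    (hfix : ∀ σ : L ≃ₐ[F] L, (∀ x : 𝓞 L, ∀ y : 𝓞 L, (y : L) = σ (x : L) - x → y ∈ P.asIdeal) →
      σ δ = δ) :
    (e : ℤ) ∣ ord (below F P) a := by
  set I : Subgroup (L ≃ₐ[F] L) := P.asIdeal.inertia (L ≃ₐ[F] L) with hI
  let E : IntermediateField F L := IntermediateField.fixedField I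
  have hδE : δ ∈ E := by
    intro ⟨σ, hσ⟩
    apply hfix
    intro x y hy
    have h1 : σ • x - x ∈ P.asIdeal := hσ x
    have h2 : y = σ • x - x := by
      apply RingOfIntegers.ext
      rw [hy]
      rfl
    rw [h2]
    exact h1
  -- the inertia groups over `F` and over `E` have the same order
  have hcard : erel E P = erel F P := by
    rw [← rzk3_card (k := E) P, ← rzk3_card (k := F) P]
    refine Nat.card_congr ?_
    refine
      { toFun := fun σ => ⟨(σ : L ≃ₐ[E] L).restrictScalars F, fun x => σ.2 x⟩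
        invFun := fun σ => ⟨IntermediateField.fixingSubgroupEquiv E
          ⟨(σ : L ≃ₐ[F] L), (IntermediateField.le_iff_le I E).1 le_rfl σ.2⟩, fun x => σ.2 x⟩
        left_inv := ?_
        right_inv := ?_ }
    · intro σ
      ext x
      rfl
    · intro σ
      ext x
      rfl
  have h1 : ord P δ = erel E P * ord (below E P) (⟨δ, hδE⟩ : E) :=
    ord_algebraMap (k := E) P (⟨δ, hδE⟩ : E)
  have h2 : (e : ℤ) * ord P δ = erel F P * ord (below F P) a := by
    rw [← ord_algebraMap (k := F) P a, ← ha, an2_ord_pow]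
  rw [h1, hcard] at h2
  have hpos : (0 : ℤ) < erel F P := by exact_mod_cast erel_pos (k := F) P
  refine ⟨ord (below E P) (⟨δ, hδE⟩ : E), ?_⟩
  have h3 : (erel F P : ℤ) * ord (below F P) a =
      erel F P * ((e : ℤ) * ord (below E P) (⟨δ, hδE⟩ : E)) := by
    rw [← h2]; ring
  exact mul_left_cancel₀ hpos.ne' h3

end Pool.Agent.H13.RZ
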