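import Pool.Agent.H13.RZ.Defs
import Pool.Agent.H13.RG.Level

/-!
# Project RG phase 2 (MP_a3214d), row RZ-P5: the number of homomorphisms, parameters in a subset
-/

set_option autoImplicit false

open MvPolynomial NumberField IsDedekindDomain

namespace Pool.Agent.H13.RZ

open Pool.Agent.H13.RG Pool.Agent.H35.AN

/-- the number of homomorphisms with a parameter in a large subset of the box -/
theorem level_in {F : Type} [Field F] [NumberField F] {Ω : Type} [Field Ω] [Algebra F Ω]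
    [IsAlgClosure F Ω] {s n : ℕ} {G : Type} [Group G] [Fintype G] (X : Core F s n G) (M : ℕ)
    (hM : 0 < M) (α : Fin s → 𝓞 F) (hfull : Full Ω X M α) (A : ℝ → Set (Fin s → 𝓞 F))
    (hA : ∀ H, A H ⊆ Par X M α H) {c1 H1 : ℝ} (hc1 : 0 < c1)
    (hcard : ∀ H : ℝ, H1 ≤ H →
      c1 * H ^ (Module.finrank ℚ F * ∑ i, X.I.d i) ≤ ((A H).ncard : ℝ)) :
    ∃ (c H0 : ℝ), 0 < c ∧ 1 ≤ H0 ∧ ∀ H : ℝ, H0 ≤ H → (HomsIn Ω X (A H)).Finite ∧
      c * H ^ (Module.finrank ℚ F * ∑ i, X.I.d i) ≤ ((HomsIn Ω X (A H)).ncard : ℝ) := by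
  classical
  have hac : IsAlgClosed Ω := IsAlgClosure.isAlgClosed F
  obtain ⟨ext, hext⟩ := exists_ext F Ω
  obtain ⟨J, hJ⟩ := exists_J (Ω := Ω) X.N_pos X.I
  have hM0 : 0 < X.N ^ J := pow_pos X.N_pos J
  have hint : ∀ x : Fin s → Ω, (∀ i, IsIntegral ℤ (X.I.fv (iO F Ω X.N) x i)) →
      ∀ j, IsIntegral ℤ (((X.N ^ J : ℕ) : Ω) * x j) := by
    intro x hx j
    rw [Nat.cast_pow]
    exact hJ x hx j
  obtain ⟨L0, hL0, hmin⟩ := min_le (Ω := Ω) X hM0
  obtain ⟨C1, hC1, hfew⟩ := few (Ω := Ω) X hM0 hL0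
  obtain ⟨C2, hC2, hfib⟩ := fibre (Ω := Ω) X hM0 hint
  obtain ⟨_, H0, _, hH0, hpar⟩ := par_card X M hM α
  obtain ⟨CS, hCS, hsize⟩ := size_le (Ω := Ω) X.I
  have hm : 0 < Module.finrank ℚ F := Module.finrank_pos
  have hst : Module.finrank ℚ F * s < Module.finrank ℚ F * ∑ i, X.I.d i :=
    Nat.mul_lt_mul_of_pos_left X.deg hm
  obtain ⟨c, hc, hdy⟩ := Pool.Agent.H41.RG.dyadic_count _ _ hst c1 C1 C2 L0 hc1 hC1 hC2 hL0
  refine ⟨c, max H0 H1, hc, hH0.trans (le_max_left _ _), ?_⟩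
  intro H hHm
  have hH : H0 ≤ H := (le_max_left _ _).trans hHm
  have hHH1 : H1 ≤ H := (le_max_right _ _).trans hHm
  have hH1 : 1 ≤ H := hH0.trans hH
  have hHpos : 0 < H := by linarith
  obtain ⟨hfin', -⟩ := hpar H hH
  have hfin : (A H).Finite := hfin'.subset (hA H)
  have hcard := hcard H hHH1
  -- points over parameters
  have hpt : ∀ u ∈ Par X M α H, ∀ x : Fin s → Ω,
      X.I.fv (iO F Ω X.N) x = (fun i => algebraMap F Ω (u i : F)) → x ≠ 0 := by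
    rintro u hu x hx rfl
    exact (hfull u (fun i => (hu i).1) 0 hx).1 (rgc10_det_zero X)
  have hlat : ∀ u ∈ Par X M α H, ∀ (x : Fin s → Ω) (h : (Ω ≃ₐ[F] Ω) →* G),
      X.I.fv (iO F Ω X.N) x = (fun i => algebraMap F Ω (u i : F)) → Twisted X h x →
        x ∈ Lat X (X.N ^ J) h := by
    intro u hu x h hx ht
    refine ⟨hint x ?_, ht⟩
    intro i
    rw [hx]
    exact (u i).isIntegral_coe.map (algebraMap F Ω).toIntAlgHom
  have hnrm : ∀ u ∈ Par X M α H, ∀ x : Fin s → Ω,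
      X.I.fv (iO F Ω X.N) x = (fun i => algebraMap F Ω (u i : F)) → nrm ext x ≤ CS * H := by
    intro u hu x hx
    rw [nrm_le_iff ext x (by positivity)]
    intro v j
    apply hsize (ext v) H hHpos x
    intro i
    rw [hx]
    have h1 : ext v (algebraMap F Ω (u i : F)) = v (u i : F) :=
      RingHom.congr_fun (hext v) (u i : F)
    rw [h1]
    exact (hu i).2 v
  -- finiteness
  have hHfin : (HomsIn Ω X (A H)).Finite := by
    refine Set.Finite.subset (hfew ext hext (max L0 (CS * H)) (le_max_left _ _)).1 ?_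
    rintro h ⟨hh, u, hu', x, hx, ht⟩
    have hu := hA H hu'
    exact ⟨hh, x, hlat u hu x h hx ht, hpt u hu x hx, (hnrm u hu x hx).trans (le_max_right _ _)⟩
  refine ⟨hHfin, ?_⟩
  -- the chosen homomorphism of a parameter
  have hex : ∀ u ∈ Par X M α H, ∃ h : (Ω ≃ₐ[F] Ω) →* G, Function.Surjective h ∧
      ∃ x : Fin s → Ω, X.I.fv (iO F Ω X.N) x = (fun i => algebraMap F Ω (u i : F)) ∧
        Twisted X h x := by
    intro u hu
    obtain ⟨x, hx⟩ := exists_point (Ω := Ω) X.I X.indep (fun i => (u i : F))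
    obtain ⟨-, h, hh, ht⟩ := hfull u (fun i => (hu i).1) x hx
    exact ⟨h, hh, x, hx, ht⟩
  choose! r hr1 hr2 using hex
  have hmain := hdy H hHpos (Fin s → 𝓞 F) ((Ω ≃ₐ[F] Ω) →* G) hfin.toFinset hHfin.toFinset r ?_
    (fun h L => ∃ x ∈ Lat X (X.N ^ J) h, x ≠ 0 ∧ nrm ext x ≤ L) ?_ ?_ ?_ ?_
  · rwa [← Set.ncard_eq_toFinset_card _ hHfin] at hmain
  · intro u hu
    rw [Set.Finite.mem_toFinset] at hu ⊢
    exact ⟨hr1 u (hA H hu), u, hu, hr2 u (hA H hu)⟩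
  · intro L hL
    obtain ⟨hf1, hf2⟩ := hfew ext hext L hL
    refine le_trans ?_ hf2
    rw [← Set.ncard_coe_finset]
    have h1 : ((hHfin.toFinset.filter
        (fun h => ∃ x ∈ Lat X (X.N ^ J) h, x ≠ 0 ∧ nrm ext x ≤ L) : Finset _) : Set _) ⊆
        {h : (Ω ≃ₐ[F] Ω) →* G | Function.Surjective h ∧
          ∃ x ∈ Lat X (X.N ^ J) h, x ≠ 0 ∧ nrm ext x ≤ L} := by
      intro h hmem
      rw [Finset.mem_coe, Finset.mem_filter, Set.Finite.mem_toFinset] at hmem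
      exact ⟨hmem.1.1, hmem.2⟩
    exact_mod_cast Set.ncard_le_ncard h1 hf1
  · rintro h - L hL ⟨x, hx, hx0, hxL⟩
    have := hmin ext hext h x hx hx0
    linarith
  · intro h hh L hLpos hLH hno
    apply hfib ext hext M α h H L hLpos hLH
    · intro x hx hx0 hxL
      exact hno ⟨x, hx, hx0, hxL⟩
    · intro u hu
      rw [Finset.mem_filter, Set.Finite.mem_toFinset] at hu
      obtain ⟨x, hx, ht⟩ := hr2 u (hA H hu.1)
      rw [hu.2] at ht
      exact ⟨hA H hu.1, x, hx, ht⟩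
  · rwa [← Set.ncard_eq_toFinset_card _ hfin]

end Pool.Agent.H13.RZ
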