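import Pool.Agent.H13.RZ.Defs
import Pool.Agent.H13.RG.Basic
import Pool.Agent.H13.RG.Local

/-!
# Project RG, phase 2 (scalar kernels), RZ-K2: inertia elements acting by scalars are trivial
-/

set_option autoImplicit false

open MvPolynomial NumberField IsDedekindDomain

namespace Pool.Agent.H13.RZ

open Pool.Agent.H13.RG Pool.Agent.H35.AN

/-- a matrix acting as a scalar on all vectors is a scalar matrix -/
theorem rzk2_mat {F : Type} [Field F] {s : ℕ} (A : Matrix (Fin s) (Fin s) F) (c : F)
    (h : ∀ v : Fin s → F, A.mulVec v = c • v) : A = c • (1 : Matrix (Fin s) (Fin s) F) := by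
  ext i j
  have h1 := congrFun (h (Pi.single j 1)) i
  rw [Matrix.mulVec_single_one] at h1
  simpa [Matrix.one_apply, Pi.single_apply] using h1

/-- the geometric sum of a non-trivial root of unity -/
theorem rzk2_geom {D : Type} [CommRing D] [IsDomain D] {c : D} {g : ℕ} (h1 : c ^ g = 1)
    (hc : c ≠ 1) : ∑ k ∈ Finset.range g, c ^ k = 0 := by
  have h2 := mul_neg_geom_sum c g
  rw [h1, sub_self] at h2
  rcases mul_eq_zero.1 h2 with h3 | h3
  · exact absurd (sub_eq_zero.1 h3).symm hc
  · exact h3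

theorem scalar_trivial {F Ω : Type} [Field F] [NumberField F] [Field Ω] [Algebra F Ω]
    [IsAlgClosure F Ω] {s n : ℕ} {G : Type} [Group G] [Fintype G] (X : Core F s n G) {J : ℕ}
    (hJ : ∀ x : Fin s → Ω, (∀ i, IsIntegral ℤ (X.I.fv (iO F Ω X.N) x i)) →
      ∀ j, IsIntegral ℤ ((X.N : Ω) ^ J * x j))
    (u : Fin s → 𝓞 F) (x : Fin s → Ω)
    (hx : X.I.fv (iO F Ω X.N) x = (fun i => algebraMap F Ω (u i : F)))
    (p : HeightOneSpectrum (𝓞 F)) (hp1 : (X.N : 𝓞 F) ∉ p.asIdeal)
    (hp2 : (Fintype.card G : 𝓞 F) ∉ p.asIdeal) (hu : ∃ i, u i ∉ p.asIdeal)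
    {κ : Type} [Field κ] (w : integralClosure ℤ Ω →+* κ) (hw : Pool.Agent.H41.Rel.Over p w)
    (σ : Ω ≃ₐ[F] Ω) (z : G) (c : F) (hz : ActsBy X z c)
    (hσ : (fun i => σ (x i)) = X.I.act (iO F Ω X.N) z x)
    (hin : ∀ (j : Fin s) (y y' : integralClosure ℤ Ω), (y : Ω) = (X.N : Ω) ^ J * x j →
      (y' : Ω) = σ ((X.N : Ω) ^ J * x j) → w y' = w y) : z = 1 := by
  classical
  have hnat : ∀ m : ℕ, (m : 𝓞 F) ∉ p.asIdeal → (m : κ) ≠ 0 := by
    intro m hm h
    apply hm
    rw [← hw (m : 𝓞 F) (m : integralClosure ℤ Ω) (by simp), map_natCast]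
    exact h
  have hN : (X.N : κ) ≠ 0 := hnat _ hp1
  have hg : ((Fintype.card G : ℕ) : κ) ≠ 0 := hnat _ hp2
  have hρ : (X.I.ρ z).map (RN F X.N).subtype = c • (1 : Matrix (Fin s) (Fin s) F) :=
    rzk2_mat _ c hz
  by_cases hc : c = 1
  · apply X.faithful
    rw [hc, one_smul] at hρ
    have hinj : Function.Injective
        (fun A : Matrix (Fin s) (Fin s) (RN F X.N) => A.map (RN F X.N).subtype) :=
      Matrix.map_injective Subtype.val_injective
    apply hinj
    show (X.I.ρ z).map (RN F X.N).subtype =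
      (1 : Matrix (Fin s) (Fin s) (RN F X.N)).map (RN F X.N).subtype
    rw [hρ, Matrix.map_one _ (map_zero _) (map_one _)]
  · exfalso
    obtain ⟨W, hW⟩ := exists_extN w hN
    have hz0 : ∀ a : 𝓞 F, IsIntegral ℤ (algebraMap F Ω (a : F)) := fun a =>
      (a.isIntegral_coe).map (algebraMap F Ω).toIntAlgHom
    have hy : ∀ j, IsIntegral ℤ ((X.N : Ω) ^ J * x j) := hJ x (fun i => by
      rw [hx]
      exact hz0 (u i))
    obtain ⟨x', hx'⟩ : ∃ x' : Fin s → RN Ω X.N, ∀ i, (x' i : Ω) = x i :=
      ⟨fun i => ⟨x i, J, hy i⟩, fun i => rfl⟩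
    have hx'' : (fun i => (RN Ω X.N).subtype (x' i)) = x := funext hx'
    have hfv : X.I.fv (iN F Ω X.N) x' = fun i => iN F Ω X.N (inO F X.N (u i)) := by
      funext i
      apply Subtype.ext
      have h1 := congrFun (fv_map X.I (iN F Ω X.N) (RN Ω X.N).subtype x') i
      rw [rgb4_comp, hx'', hx] at h1
      exact h1
    obtain ⟨i, hi⟩ := hu
    -- `c` is a root of unity
    have hcg : c ^ Fintype.card G = 1 := by
      have h1 : (X.I.ρ z) ^ Fintype.card G = 1 := by
        rw [← map_pow, pow_card_eq_one, map_one]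
      have h2 : ((X.I.ρ z).map (RN F X.N).subtype) ^ Fintype.card G = 1 := by
        rw [← Matrix.map_pow, h1, Matrix.map_one _ (map_zero _) (map_one _)]
      rw [hρ, smul_pow, one_pow] at h2
      have h3 := congrFun (congrFun h2 i) i
      simpa using h3
    -- the action on `x`
    have hσx : ∀ j, σ (x j) = algebraMap F Ω c * x j := by
      intro j
      have h1 : (X.I.ρ z).map (iO F Ω X.N) =
          algebraMap F Ω c • (1 : Matrix (Fin s) (Fin s) Ω) := by
        have h2 : (X.I.ρ z).map (iO F Ω X.N) =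
            ((X.I.ρ z).map (RN F X.N).subtype).map (algebraMap F Ω) := by
          rw [Matrix.map_map]
          rfl
        rw [h2, hρ]
        ext a b
        by_cases hab : a = b
        · simp [hab]
        · simp [hab]
      have h3 := congrFun hσ j
      rw [h3]
      unfold Inv.act
      rw [h1, Matrix.smul_mulVec, Matrix.one_mulVec]
      rfl
    -- the element `c` of the integral closure
    have hcint : IsIntegral ℤ (algebraMap F Ω c) := by
      refine IsIntegral.of_pow (n := Fintype.card G) Fintype.card_pos ?_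
      rw [← map_pow, hcg, map_one]
      exact isIntegral_one
    set cO : integralClosure ℤ Ω := ⟨algebraMap F Ω c, hcint⟩ with hcO
    have hcO1 : cO ^ Fintype.card G = 1 := by
      apply Subtype.ext
      show (algebraMap F Ω c) ^ Fintype.card G = 1
      rw [← map_pow, hcg, map_one]
    have hcO2 : cO ≠ 1 := by
      intro h
      apply hc
      have h1 : algebraMap F Ω c = 1 := congrArg Subtype.val h
      rw [← map_one (algebraMap F Ω)] at h1
      exact (algebraMap F Ω).injective h1
    have hwc : w cO ≠ 1 := by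
      intro h
      have h1 := congrArg w (rzk2_geom hcO1 hcO2)
      rw [map_sum, map_zero] at h1
      simp only [map_pow, h, one_pow, Finset.sum_const, Finset.card_range, nsmul_eq_mul,
        mul_one] at h1
      exact hg h1
    have hWx : ∀ j, W (x' j) = 0 := by
      intro j
      have h1 := hin j ⟨_, hy j⟩ (cO * ⟨_, hy j⟩) rfl (by
        show algebraMap F Ω c * ((X.N : Ω) ^ J * x j) = σ ((X.N : Ω) ^ J * x j)
        rw [map_mul, map_pow, map_natCast, hσx j]
        ring)
      rw [map_mul] at h1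
      have h2 : (w cO - 1) * w ⟨_, hy j⟩ = 0 := by rw [sub_mul, h1, one_mul, sub_self]
      have h3 : w ⟨_, hy j⟩ = 0 := by
        rcases mul_eq_zero.1 h2 with h4 | h4
        · exact absurd (sub_eq_zero.1 h4) hwc
        · exact h4
      have h5 := hW ⟨_, hy j⟩ ((X.N : RN Ω X.N) ^ J * x' j) (by
        push_cast
        rw [hx' j])
      rw [h3, map_mul, map_pow, map_natCast] at h5
      rcases mul_eq_zero.1 h5 with h6 | h6
      · exact absurd h6 (pow_ne_zero _ hN)
      · exact h6
    have h1 := congrFun (fv_map X.I (iN F Ω X.N) W x') i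
    have h2 : (fun i => W (x' i)) = (0 : κ) • (fun _ => (0 : κ)) := by
      funext j
      rw [hWx j]
      simp
    rw [h2, fv_smul, zero_pow (X.I.d_pos i).ne', zero_mul, hfv] at h1
    simp only at h1
    apply hi
    rw [← hw (u i) ⟨_, hz0 (u i)⟩ rfl, ← hW ⟨_, hz0 (u i)⟩ _ (rgb4_inO (u i))]
    exact h1

end Pool.Agent.H13.RZ
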