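import Pool.Agent.H13.RZ.Defs
import Pool.Agent.H13.RZ.Inertia
import Pool.Agent.H13.RZ.Scalar
import Pool.Agent.H13.RZ.KummerVal
import Pool.Agent.H13.RZ.Delta
import Pool.Agent.H13.RG.Integ
import Pool.Agent.H13.RG.Place
import Pool.Agent.H35.AN.Sieve1
import Pool.Agent.H35.AN.Tower

/-!
# Project RG, phase 2 (scalar kernels), RZ-K6: valuations of the constant of a scalar twist
-/

set_option autoImplicit false

open MvPolynomial NumberField IsDedekindDomain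

namespace Pool.Agent.H13.RZ

open Pool.Agent.H13.RG Pool.Agent.H35.AN

section Twist

variable {F Ω : Type} [Field F] [NumberField F] [Field Ω] [Algebra F Ω] [IsAlgClosure F Ω]
  {s n : ℕ} {G : Type} [Group G] [Fintype G]

/-- if `1` acts as the scalar `c`, then `c = 1` -/
theorem rzk6_one (X : Core F s n G) {c : F} (hc : ActsBy X 1 c) : c = 1 := by
  have hs : 0 < s := by
    rcases Nat.eq_zero_or_pos s with h | h
    · subst h
      have := X.deg
      simp at this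
    · exact h
  have h1 := congrFun (hc (fun _ => 1)) ⟨0, hs⟩
  have h2 : X.I.act (RN F X.N).subtype 1 (fun _ => (1 : F)) = fun _ => (1 : F) := by
    unfold Inv.act
    rw [map_one, Matrix.map_one _ (map_zero _) (map_one _), Matrix.one_mulVec]
  rw [h2] at h1
  simpa using h1.symm

/-- `h₀, h` with the same permutations, scalar kernel; `χ` the character, `δ` its generator. -/
theorem twist_val (X : Core F s n G) (hn : 0 < n)
    (hker : ∀ g, X.π g = 1 → ∃ c : F, ActsBy X g c)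
    {M : ℕ} (hMN : X.N ∣ M) (hMG : Fintype.card G ∣ M)
    (u₀ u : Fin s → 𝓞 F) (hu₀ : Prim M u₀) (hu : Prim M u) (x₀ x : Fin s → Ω)
    (hx₀ : X.I.fv (iO F Ω X.N) x₀ = (fun i => algebraMap F Ω (u₀ i : F)))
    (hx : X.I.fv (iO F Ω X.N) x = (fun i => algebraMap F Ω (u i : F)))
    (h₀ h : (Ω ≃ₐ[F] Ω) →* G) (hh₀ : Function.Surjective h₀) (hh : Function.Surjective h)
    (ht₀ : Twisted X h₀ x₀) (ht : Twisted X h x)
    (hπ : ∀ σ, X.π (h₀ σ) = X.π (h σ))
    (K : IntermediateField F Ω) [NumberField K] (e : (K →ₐ[F] Ω) ≃ Fin n)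
    (he : ∀ (σ : Ω ≃ₐ[F] Ω) (φ : K →ₐ[F] Ω), e (σ.toAlgHom.comp φ) = X.π (h₀ σ) (e φ))
    {δ : Ω} (hδ : δ ≠ 0) {c : (Ω ≃ₐ[F] Ω) → F}
    (hδσ : ∀ σ, σ δ = algebraMap F Ω (c σ) * δ) (hc : ∀ σ, ActsBy X ((h₀ σ)⁻¹ * h σ) (c σ))
    {q : ℕ} {a : F} (ha : δ ^ q = algebraMap F Ω a)
    (p : HeightOneSpectrum (𝓞 F)) (hpM : (M : 𝓞 F) ∉ p.asIdeal)
    (hpK : ∀ r : ℕ, r.Prime → (r : 𝓞 F) ∈ p.asIdeal → ¬ (r : ℤ) ∣ NumberField.discr K) :
    (q : ℤ) ∣ ord p a := by
  classical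
  have hac : IsAlgClosed Ω := IsAlgClosure.isAlgClosed F
  have hchar : CharZero Ω := charZero_of_injective_algebraMap (algebraMap F Ω).injective
  have halg : Algebra.IsAlgebraic F Ω := IsAlgClosure.isAlgebraic
  have hnor : Normal F Ω := IsAlgClosure.normal F Ω
  have hKfin : Module.Finite F K := Module.Finite.of_restrictScalars_finite ℚ F K
  have : Finite (K →ₐ[F] Ω) := Finite.of_equiv _ e.symm
  have : Fintype (K →ₐ[F] Ω) := Fintype.ofFinite _
  -- the bad integers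
  have hdvd : ∀ m : ℕ, m ∣ M → (m : 𝓞 F) ∉ p.asIdeal := by
    rintro m ⟨m', rfl⟩ hm
    apply hpM
    rw [Nat.cast_mul]
    exact p.asIdeal.mul_mem_right _ hm
  have hpN := hdvd _ hMN
  have hpG := hdvd _ hMG
  obtain ⟨J, hJ⟩ := exists_J (F := F) (Ω := Ω) X.N_pos X.I
  -- the Galois extension
  let b := Module.finBasis F K
  obtain ⟨L, hLnf, hLgal, hL⟩ := exists_galois (F := F) (Ω := Ω)
    (Finset.univ.image x₀ ∪ Finset.univ.image x ∪ {δ} ∪
      Finset.univ.image (fun z : (K →ₐ[F] Ω) × Fin (Module.finrank F K) => z.1 (b z.2)))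
  have hx₀L : ∀ i, x₀ i ∈ L := fun i => hL _ (by simp)
  have hxL : ∀ i, x i ∈ L := fun i => hL _ (by simp)
  have hδL : δ ∈ L := hL _ (by simp)
  have hφL : ∀ (φ : K →ₐ[F] Ω) (y : K), φ y ∈ L := by
    intro φ y
    rw [← b.sum_repr y, map_sum]
    refine sum_mem fun i _ => ?_
    rw [Algebra.smul_def, map_mul, φ.commutes]
    refine L.mul_mem (L.algebraMap_mem _) (hL _ ?_)
    simp only [Finset.mem_union, Finset.mem_image, Finset.mem_univ, true_and]
    exact Or.inr ⟨(φ, i), rfl⟩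
  have hLalg : IsAlgClosure L Ω :=
    ⟨hac, Algebra.IsAlgebraic.tower_top (K := F) L⟩
  -- the places
  obtain ⟨P, hP⟩ := exists_above L p
  obtain ⟨κ, hκ, w, hw⟩ := exists_over (F := L) (Ω := Ω) P
  have hwp : Pool.Agent.H41.Rel.Over p w := by
    intro y z hz
    have h1 := hw (algebraMap (𝓞 F) (𝓞 L) y) z (by rw [hz]; rfl)
    rw [h1, ← hP]
    rfl
  obtain ⟨r, hr, hrp⟩ := an30_exists_rat F p
  have hwr : w r = 0 := (hwp (r : 𝓞 F) (r : integralClosure ℤ Ω) (by simp)).mpr hrp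
  -- the valuation
  rw [← hP]
  refine kummer_val P (δ := ⟨δ, hδL⟩) (a := a) (e := q)
    (fun h0 => hδ (congrArg Subtype.val h0)) (Subtype.ext ha) ?_
  intro σL hσL
  obtain ⟨σ, rfl⟩ := AlgEquiv.restrictNormalHom_surjective (F := F) (K₁ := L) Ω σL
  have hres : ∀ y : L, ((AlgEquiv.restrictNormalHom (F := F) (K₁ := Ω) L σ y : L) : Ω) = σ (y : Ω) :=
    fun y => AlgEquiv.restrictNormal_commutes σ L y
  -- the inertia condition for `w`
  have hwin : ∀ z z' : integralClosure ℤ Ω, (z : Ω) ∈ L → (z' : Ω) = σ (z : Ω) → w z' = w z := by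
    intro z z' hzL hz'
    have hint : IsIntegral ℤ (⟨(z : Ω), hzL⟩ : L) :=
      (isIntegral_algHom_iff (L.val.restrictScalars ℤ) L.val.injective).mp z.2
    have hint' : IsIntegral ℤ
        (AlgEquiv.restrictNormalHom (F := F) (K₁ := Ω) L σ ⟨(z : Ω), hzL⟩ : L) :=
      hint.map ((AlgEquiv.restrictNormalHom (F := F) (K₁ := Ω) L σ).toAlgHom.restrictScalars ℤ)
    let y₁ : 𝓞 L := ⟨⟨(z : Ω), hzL⟩, hint⟩
    let y₂ : 𝓞 L := ⟨AlgEquiv.restrictNormalHom (F := F) (K₁ := Ω) L σ ⟨(z : Ω), hzL⟩, hint'⟩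
    have h0 : ((y₂ - y₁ : 𝓞 L) : L) = (y₂ : L) - (y₁ : L) := map_sub (algebraMap (𝓞 L) L) y₂ y₁
    have h1 : y₂ - y₁ ∈ P.asIdeal := hσL y₁ (y₂ - y₁) h0
    have h2 : w (z' - z) = 0 := by
      rw [hw (y₂ - y₁) (z' - z)]
      · exact h1
      · rw [h0, map_sub]
        change (z' : Ω) - (z : Ω) = _
        rw [hz', ← hres ⟨(z : Ω), hzL⟩]
        rfl
    rw [map_sub, sub_eq_zero] at h2
    exact h2
  -- the permutations are trivial
  have hfix : ∀ φ : K →ₐ[F] Ω, σ.toAlgHom.comp φ = φ := by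
    intro φ
    apply AlgHom.ext
    intro y
    exact inertia_fixes K w r hr hwr (hpK r hr hrp) σ φ (by
      intro y z z' hz hz'
      exact hwin z z' (by rw [hz]; exact hφL φ _) (by rw [hz', hz])) y
  have hπ₀ : X.π (h₀ σ) = 1 := by
    ext i
    obtain ⟨φ, rfl⟩ := e.surjective i
    rw [← he, hfix]
    rfl
  -- the group elements are trivial
  have hone : ∀ (u' : Fin s → 𝓞 F) (x' : Fin s → Ω) (h' : (Ω ≃ₐ[F] Ω) →* G), Prim M u' →
      X.I.fv (iO F Ω X.N) x' = (fun i => algebraMap F Ω (u' i : F)) → Twisted X h' x' →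
      (∀ i, x' i ∈ L) → X.π (h' σ) = 1 → h' σ = 1 := by
    intro u' x' h' hu' hx' ht' hL' hπ'
    have h1 : X.π (h' σ)⁻¹ = 1 := by rw [map_inv, hπ', inv_one]
    obtain ⟨c', hc'⟩ := hker _ h1
    have h2 := scalar_trivial X hJ u' x' hx' p hpN hpG (hu' p hpM) w hwp σ (h' σ)⁻¹ c' hc' (ht' σ)
      (by
        intro j y y' hy hy'
        refine hwin y y' ?_ (by rw [hy', hy])
        rw [hy]
        exact L.mul_mem (pow_mem (natCast_mem L _) _) (hL' j))
    rwa [inv_eq_one] at h2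
  have h1 := hone u₀ x₀ h₀ hu₀ hx₀ ht₀ hx₀L hπ₀
  have h2 := hone u x h hu hx ht hxL (by rw [← hπ]; exact hπ₀)
  have h3 := hc σ
  rw [h1, h2, inv_one, one_mul] at h3
  have h4 := rzk6_one X h3
  apply Subtype.ext
  rw [hres]
  change σ δ = δ
  rw [hδσ, h4, map_one, one_mul]

end Twist

end Pool.Agent.H13.RZ
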