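import Pool.Agent.H13.RZ.Delta
import Pool.Agent.H13.RZ.Scalar
import Pool.Agent.H13.RZ.KummerClasses
import Pool.Agent.H13.RZ.Twist
import Pool.Agent.H13.RG.Regular
import Pool.Agent.H35.AN.Omega
import Pool.Agent.H35.AN.Sieve1
import Pool.Agent.H35.AN.Val

/-!
# Project RG, phase 2 (scalar kernels), RZ-K7: few homomorphisms with the same permutations
-/

set_option autoImplicit false

open MvPolynomial NumberField IsDedekindDomain

namespace Pool.Agent.H13.RZ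

open Pool.Agent.H13.RG Pool.Agent.H35.AN

section Act

variable {F : Type} [Field F] {s n : ℕ} {G : Type} [Group G] [Fintype G]

theorem rzk7_smul (X : Core F s n G) (g : G) (c : F) (v : Fin s → F) :
    X.I.act (RN F X.N).subtype g (c • v) = c • X.I.act (RN F X.N).subtype g v := by
  unfold Inv.act
  rw [Matrix.mulVec_smul]

theorem rzk7_act_inj (X : Core F s n G) (g : G) {v w : Fin s → F}
    (h : X.I.act (RN F X.N).subtype g v = X.I.act (RN F X.N).subtype g w) : v = w := by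
  have h1 := congrArg (X.I.act (RN F X.N).subtype g⁻¹) h
  rwa [← rgc1_act_mul, ← rgc1_act_mul, inv_mul_cancel, rgc1_act_one, rgc1_act_one] at h1

theorem rzk7_ext (X : Core F s n G) {g h : G}
    (H : ∀ v, X.I.act (RN F X.N).subtype g v = X.I.act (RN F X.N).subtype h v) : g = h := by
  have h1 : g * h⁻¹ = 1 := by
    apply X.faithful
    have h2 : (X.I.ρ (g * h⁻¹)).map (RN F X.N).subtype =
        (1 : F) • (1 : Matrix (Fin s) (Fin s) F) := by
      apply rzk2_mat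
      intro v
      show X.I.act (RN F X.N).subtype (g * h⁻¹) v = (1 : F) • v
      rw [rgc1_act_mul, H, ← rgc1_act_mul, mul_inv_cancel, rgc1_act_one, one_smul]
    have hinj : Function.Injective
        (fun A : Matrix (Fin s) (Fin s) (RN F X.N) => A.map (RN F X.N).subtype) :=
      Matrix.map_injective Subtype.val_injective
    apply hinj
    show (X.I.ρ (g * h⁻¹)).map (RN F X.N).subtype =
      (1 : Matrix (Fin s) (Fin s) (RN F X.N)).map (RN F X.N).subtype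
    rw [h2, Matrix.map_one _ (map_zero _) (map_one _), one_smul]
  exact mul_inv_eq_one.1 h1

theorem rzk7_unique (X : Core F s n G) (hs : 0 < s) {g : G} {c c' : F} (h : ActsBy X g c)
    (h' : ActsBy X g c') : c = c' := by
  have h1 := congrFun ((h (fun _ => 1)).symm.trans (h' (fun _ => 1))) ⟨0, hs⟩
  simpa using h1

theorem rzk7_mul {X : Core F s n G} {g h : G} {c d : F} (hg : ActsBy X g c) (hh : ActsBy X h d) :
    ActsBy X (g * h) (c * d) := by
  intro v
  rw [rgc1_act_mul, hh v, rzk7_smul, hg v, smul_smul, mul_comm]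

theorem rzk7_one (X : Core F s n G) : ActsBy X (1 : G) 1 := by
  intro v
  rw [rgc1_act_one, one_smul]

theorem rzk7_ne (X : Core F s n G) (hs : 0 < s) {g : G} {c : F} (h : ActsBy X g c) : c ≠ 0 := by
  rintro rfl
  have h1 : (fun _ => 1 : Fin s → F) = 0 := by
    apply rzk7_act_inj X g
    rw [h, h, zero_smul, zero_smul]
  have h2 := congrFun h1 ⟨0, hs⟩
  simp at h2

/-- scalars are central -/
theorem rzk7_comm {X : Core F s n G} {z : G} {c : F} (hz : ActsBy X z c) (g : G) :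
    z * g = g * z := by
  apply rzk7_ext X
  intro v
  rw [rgc1_act_mul, rgc1_act_mul, hz, hz, rzk7_smul]

theorem rzk7_inj {X : Core F s n G} {z z' : G} {c : F} (hz : ActsBy X z c)
    (hz' : ActsBy X z' c) : z = z' := by
  apply rzk7_ext X
  intro v
  rw [hz, hz']

end Act

/-- a rational prime in `p` divides every rational integer in `p` -/
theorem rzk7_dvd {F : Type} [Field F] [NumberField F] (p : HeightOneSpectrum (𝓞 F)) {r M : ℕ}
    (hr : r.Prime) (hrp : (r : 𝓞 F) ∈ p.asIdeal) (hM : (M : 𝓞 F) ∈ p.asIdeal) : r ∣ M := by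
  by_contra hcon
  have hcop : Nat.Coprime r M := (Nat.Prime.coprime_iff_not_dvd hr).2 hcon
  have hz : IsCoprime (r : ℤ) (M : ℤ) := Nat.isCoprime_iff_coprime.2 hcop
  obtain ⟨u, v, huv⟩ := hz
  have h1 : (1 : 𝓞 F) ∈ p.asIdeal := by
    have h2 : ((u * (r : ℤ) + v * (M : ℤ) : ℤ) : 𝓞 F) = 1 := by
      rw [huv]; simp
    rw [← h2]
    push_cast
    exact p.asIdeal.add_mem (p.asIdeal.mul_mem_left _ hrp) (p.asIdeal.mul_mem_left _ hM)
  exact p.isPrime.ne_top ((Ideal.eq_top_iff_one _).2 h1)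

/-- the primes over the prime divisors of `M` and `D` -/
theorem rzk7_primes (F : Type) [Field F] [NumberField F] (M D : ℕ) (hM : M ≠ 0) :
    ∃ A : Finset (HeightOneSpectrum (𝓞 F)),
      A.card ≤ Module.finrank ℚ F * (M.primeFactors.card + D.primeFactors.card) ∧
      ∀ p : HeightOneSpectrum (𝓞 F), p ∉ A → (M : 𝓞 F) ∉ p.asIdeal ∧
        ∀ r : ℕ, r.Prime → (r : 𝓞 F) ∈ p.asIdeal → D ≠ 0 → ¬ r ∣ D := by
  classical
  have h1 : ∀ r : ℕ, ∃ t : Finset (HeightOneSpectrum (𝓞 F)), t.card ≤ Module.finrank ℚ F ∧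
      (r.Prime → ∀ p : HeightOneSpectrum (𝓞 F), (r : 𝓞 F) ∈ p.asIdeal → p ∈ t) := by
    intro r
    by_cases hr : r.Prime
    · obtain ⟨t, ht1, ht2⟩ := an30_primes_over F hr
      exact ⟨t, ht1, fun _ => ht2⟩
    · exact ⟨∅, by simp, fun h => absurd h hr⟩
  choose t ht1 ht2 using h1
  refine ⟨(M.primeFactors ∪ D.primeFactors).biUnion t, ?_, fun p hp => ⟨fun hMp => ?_,
    fun r hr hrp hD hrD => ?_⟩⟩
  · refine Finset.card_biUnion_le.trans ?_
    refine (Finset.sum_le_card_nsmul _ _ (Module.finrank ℚ F) (fun r _ => ht1 r)).trans ?_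
    rw [smul_eq_mul, mul_comm]
    exact Nat.mul_le_mul_left _ (Finset.card_union_le _ _)
  · obtain ⟨r, hr, hrp⟩ := an30_exists_rat F p
    apply hp
    rw [Finset.mem_biUnion]
    exact ⟨r, Finset.mem_union_left _ (Nat.mem_primeFactors.2
      ⟨hr, rzk7_dvd p hr hrp hMp, hM⟩), ht2 r hr p hrp⟩
  · apply hp
    rw [Finset.mem_biUnion]
    exact ⟨r, Finset.mem_union_right _ (Nat.mem_primeFactors.2 ⟨hr, hrD, hD⟩), ht2 r hr p hrp⟩

/-- `q^(m (a + ω(D))) ≤ C D^ε` -/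
theorem rzk7_omega (q m a : ℕ) (hq : 0 < q) (ε : ℝ) (hε : 0 < ε) : ∃ C : ℝ, 1 ≤ C ∧
    ∀ (D : ℕ) (N : ℕ), 1 ≤ D → N ≤ m * (a + D.primeFactors.card) →
      (q : ℝ) ^ N ≤ C * (D : ℝ) ^ ε := by
  obtain ⟨C, hC, h⟩ := two_pow_omega (q * m) ε hε
  have hq1 : (1 : ℝ) ≤ q := by exact_mod_cast hq
  refine ⟨(q : ℝ) ^ (m * a) * C, one_le_mul_of_one_le_of_one_le (one_le_pow₀ hq1) hC, ?_⟩
  intro D N hD hN
  have h2 : (q : ℝ) ^ (m * D.primeFactors.card) ≤ (2 : ℝ) ^ (q * m * D.primeFactors.card) := by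
    have h3 : (q : ℝ) ≤ 2 ^ q := by exact_mod_cast Nat.lt_two_pow_self.le
    calc (q : ℝ) ^ (m * D.primeFactors.card) ≤ ((2 : ℝ) ^ q) ^ (m * D.primeFactors.card) :=
          pow_le_pow_left₀ (by positivity) h3 _
      _ = (2 : ℝ) ^ (q * m * D.primeFactors.card) := by rw [← pow_mul, mul_assoc]
  calc (q : ℝ) ^ N ≤ (q : ℝ) ^ (m * (a + D.primeFactors.card)) := pow_le_pow_right₀ hq1 hN
    _ = (q : ℝ) ^ (m * a) * (q : ℝ) ^ (m * D.primeFactors.card) := by
        rw [mul_add, pow_add]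
    _ ≤ (q : ℝ) ^ (m * a) * (C * (D : ℝ) ^ ε) :=
        mul_le_mul_of_nonneg_left (h2.trans (h D hD)) (by positivity)
    _ = _ := by ring


section Main

variable {F Ω : Type} [Field F] [NumberField F] [Field Ω] [Algebra F Ω] [IsAlgClosure F Ω]
  {s n : ℕ} {G : Type} [Group G] [Fintype G]

/-- the point of a primitive parameter is not zero -/
theorem rzk7_ne_zero (X : Core F s n G) (hs : 0 < s) {M : ℕ} (hM : 0 < M) {u : Fin s → 𝓞 F}
    (hu : Prim M u) {x : Fin s → Ω}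
    (hx : X.I.fv (iO F Ω X.N) x = (fun i => algebraMap F Ω (u i : F))) : x ≠ 0 := by
  rintro rfl
  obtain ⟨r, hrM, hr⟩ := Nat.exists_infinite_primes (M + 1)
  obtain ⟨p, hp⟩ := exists_prime_over F hr
  have hMp : (M : 𝓞 F) ∉ p.asIdeal := fun h =>
    absurd (Nat.le_of_dvd hM (rzk7_dvd p hr hp h)) (by omega)
  obtain ⟨i, hi⟩ := hu p hMp
  apply hi
  have h1 := congrFun hx i
  have h2 : X.I.fv (iO F Ω X.N) 0 i = 0 := by
    show eval₂ (iO F Ω X.N) 0 (X.I.f i) = 0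
    have h3 := (X.I.hom i)
    rw [eval₂_eq_eval_map]
    have h4 : (MvPolynomial.map (iO F Ω X.N) (X.I.f i)).IsHomogeneous (X.I.d i) := h3.map _
    rw [show (0 : Fin s → Ω) = fun _ => 0 from rfl, MvPolynomial.eval_eq']
    apply Finset.sum_eq_zero
    intro d hd
    have h6 : (X.I.d i) ≠ 0 := (X.I.d_pos i).ne'
    have h7 : ∑ j, d j = X.I.d i := by
      have h8 := h4 (mem_support_iff.1 hd)
      rw [← h8, Finsupp.weight_apply, Finsupp.sum_fintype _ _ (by simp)]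
      simp
    obtain ⟨j, hj⟩ : ∃ j, d j ≠ 0 := by
      by_contra hcon
      push Not at hcon
      rw [Finset.sum_eq_zero (fun j _ => hcon j)] at h7
      exact h6 h7.symm
    rw [Finset.prod_eq_zero (Finset.mem_univ j) (zero_pow hj), mul_zero]
  rw [h2] at h1
  have h3 : (u i : F) = 0 := (map_eq_zero_iff _ (algebraMap F Ω).injective).1 h1.symm
  have h4 : u i = 0 := by exact_mod_cast h3
  rw [h4]
  exact p.asIdeal.zero_mem

open Classical in
/-- the scalar of an element of the kernel -/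
noncomputable def rzk7_c (X : Core F s n G) (hker : ∀ g, X.π g = 1 → ∃ c : F, ActsBy X g c)
    (g : G) : F := if h : X.π g = 1 then (hker g h).choose else 1

theorem rzk7_c_spec (X : Core F s n G) (hker : ∀ g, X.π g = 1 → ∃ c : F, ActsBy X g c)
    {g : G} (h : X.π g = 1) : ActsBy X g (rzk7_c X hker g) := by
  rw [rzk7_c, dif_pos h]
  exact (hker g h).choose_spec

/-- all roots of unity of order dividing the order of the kernel are scalars of the kernel -/
theorem rzk7_roots (X : Core F s n G) (hs : 0 < s)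
    (hker : ∀ g, X.π g = 1 → ∃ c : F, ActsBy X g c) {ζ : Ω}
    (hζ : ζ ^ Nat.card X.π.ker = 1) : ∃ z : F, ζ = algebraMap F Ω z := by
  classical
  have hq : 0 < Nat.card X.π.ker := Nat.card_pos
  haveI : Fintype X.π.ker := Fintype.ofFinite _
  let f : X.π.ker → Ω := fun z => algebraMap F Ω (rzk7_c X hker z)
  have hf : Function.Injective f := by
    intro z z' h
    have h1 : rzk7_c X hker z = rzk7_c X hker z' := (algebraMap F Ω).injective h
    have h2 := rzk7_c_spec X hker z.2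
    rw [h1] at h2
    exact Subtype.ext (rzk7_inj h2 (rzk7_c_spec X hker z'.2))
  have hpow : ∀ z : X.π.ker, f z ^ Nat.card X.π.ker = 1 := by
    intro z
    have h1 : ∀ k : ℕ, ActsBy X ((z : G) ^ k) (rzk7_c X hker z ^ k) := by
      intro k
      induction k with
      | zero => simpa using rzk7_one X
      | succ k ih => rw [pow_succ, pow_succ]; exact rzk7_mul ih (rzk7_c_spec X hker z.2)
    have h2 : (z : G) ^ Nat.card X.π.ker = 1 := by
      have := pow_card_eq_one' (x := z)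
      exact_mod_cast congrArg (fun y : X.π.ker => (y : G)) this
    have h3 := h1 (Nat.card X.π.ker)
    rw [h2] at h3
    have h4 := rzk7_unique X hs h3 (rzk7_one X)
    show (algebraMap F Ω (rzk7_c X hker z)) ^ Nat.card X.π.ker = 1
    rw [← map_pow, h4, map_one]
  have hsub : Finset.univ.image f ⊆ Polynomial.nthRootsFinset (Nat.card X.π.ker) (1 : Ω) := by
    intro y hy
    obtain ⟨z, -, rfl⟩ := Finset.mem_image.1 hy
    exact (Polynomial.mem_nthRootsFinset hq 1).2 (hpow z)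
  have hcard : (Polynomial.nthRootsFinset (Nat.card X.π.ker) (1 : Ω)).card ≤
      (Finset.univ.image f).card := by
    rw [Finset.card_image_of_injective _ hf, Finset.card_univ, ← Nat.card_eq_fintype_card,
      Polynomial.nthRootsFinset_def]
    exact (Multiset.toFinset_card_le _).trans (Polynomial.card_nthRoots _ _)
  have h1 := Finset.eq_of_subset_of_card_le hsub hcard
  have h2 : ζ ∈ Finset.univ.image f := by
    rw [h1]
    exact (Polynomial.mem_nthRootsFinset hq 1).2 hζ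
  obtain ⟨z, -, hz⟩ := Finset.mem_image.1 h2
  exact ⟨_, hz.symm⟩

/-- the twisting element of one homomorphism -/
theorem rzk7_delta (X : Core F s n G) (hs : 0 < s)
    (hker : ∀ g, X.π g = 1 → ∃ c : F, ActsBy X g c)
    {x₀ x : Fin s → Ω} (hx₀ : x₀ ≠ 0) (hx : x ≠ 0)
    {h₀ h : (Ω ≃ₐ[F] Ω) →* G} (hh₀ : Function.Surjective h₀) (hh : Function.Surjective h)
    (ht₀ : Twisted X h₀ x₀) (ht : Twisted X h x) (hπ : ∀ σ, X.π (h₀ σ) = X.π (h σ)) :
    ∃ (δ : Ω) (a : F), δ ≠ 0 ∧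
      (∀ σ, σ δ = algebraMap F Ω (rzk7_c X hker ((h₀ σ)⁻¹ * h σ)) * δ) ∧
      δ ^ Nat.card X.π.ker = algebraMap F Ω a := by
  classical
  have hz : ∀ σ, X.π ((h₀ σ)⁻¹ * h σ) = 1 := by
    intro σ
    rw [map_mul, map_inv, hπ, inv_mul_cancel]
  have hspec := fun σ => rzk7_c_spec X hker (hz σ)
  let χ : (Ω ≃ₐ[F] Ω) →* Fˣ :=
    { toFun := fun σ => Units.mk0 (rzk7_c X hker ((h₀ σ)⁻¹ * h σ)) (rzk7_ne X hs (hspec σ))
      map_one' := by
        apply Units.ext
        show rzk7_c X hker ((h₀ 1)⁻¹ * h 1) = 1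
        have h1 := hspec 1
        have h2 : (h₀ 1)⁻¹ * h 1 = 1 := by rw [map_one, map_one, inv_one, one_mul]
        rw [h2] at h1 ⊢
        exact rzk7_unique X hs h1 (rzk7_one X)
      map_mul' := by
        intro σ τ
        apply Units.ext
        show rzk7_c X hker ((h₀ (σ * τ))⁻¹ * h (σ * τ)) =
          rzk7_c X hker ((h₀ σ)⁻¹ * h σ) * rzk7_c X hker ((h₀ τ)⁻¹ * h τ)
        have h1 : (h₀ (σ * τ))⁻¹ * h (σ * τ) = ((h₀ σ)⁻¹ * h σ) * ((h₀ τ)⁻¹ * h τ) := by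
          rw [map_mul, map_mul, mul_inv_rev]
          have h2 := rzk7_comm (hspec σ) ((h₀ τ)⁻¹)
          calc (h₀ τ)⁻¹ * (h₀ σ)⁻¹ * (h σ * h τ) = (h₀ τ)⁻¹ * ((h₀ σ)⁻¹ * h σ) * h τ := by group
            _ = ((h₀ σ)⁻¹ * h σ) * (h₀ τ)⁻¹ * h τ := by rw [← h2]
            _ = _ := by group
        refine rzk7_unique X hs (g := (h₀ (σ * τ))⁻¹ * h (σ * τ)) (hspec (σ * τ)) ?_
        rw [h1]
        exact rzk7_mul (hspec σ) (hspec τ) }
  have hχ : ∀ σ : Ω ≃ₐ[F] Ω, (∀ y ∈ Finset.univ.image x₀ ∪ Finset.univ.image x, σ y = y) →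
      χ σ = 1 := by
    intro σ hσ
    have h1 : h₀ σ = 1 := by
      have h2 : X.I.act (iO F Ω X.N) (h₀ σ)⁻¹ x₀ = x₀ := by
        rw [← ht₀ σ]
        funext i
        exact hσ _ (Finset.mem_union_left _ (Finset.mem_image_of_mem _ (Finset.mem_univ i)))
      exact inv_eq_one.1 (regular X hh₀ ht₀ hx₀ _ h2)
    have h3 : h σ = 1 := by
      have h2 : X.I.act (iO F Ω X.N) (h σ)⁻¹ x = x := by
        rw [← ht σ]
        funext i
        exact hσ _ (Finset.mem_union_right _ (Finset.mem_image_of_mem _ (Finset.mem_univ i)))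
      exact inv_eq_one.1 (regular X hh ht hx _ h2)
    apply Units.ext
    show rzk7_c X hker ((h₀ σ)⁻¹ * h σ) = 1
    have h4 := hspec σ
    have h5 : (h₀ σ)⁻¹ * h σ = 1 := by rw [h1, h3, inv_one, one_mul]
    rw [h5] at h4 ⊢
    exact rzk7_unique X hs h4 (rzk7_one X)
  obtain ⟨δ, hδ, hδσ⟩ := exists_delta χ _ hχ
  haveI : Algebra.IsAlgebraic F Ω := IsAlgClosure.isAlgebraic
  haveI : Normal F Ω := IsAlgClosure.normal F Ω
  haveI : CharZero Ω := charZero_of_injective_algebraMap (algebraMap F Ω).injective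
  haveI : IsGalois F Ω := IsGalois.mk
  have hfix : ∀ σ : Ω ≃ₐ[F] Ω, σ (δ ^ Nat.card X.π.ker) = δ ^ Nat.card X.π.ker := by
    intro σ
    rw [map_pow, hδσ, mul_pow, ← map_pow]
    have h1 : ∀ k : ℕ, ActsBy X (((h₀ σ)⁻¹ * h σ) ^ k) (rzk7_c X hker ((h₀ σ)⁻¹ * h σ) ^ k) := by
      intro k
      induction k with
      | zero => simpa using rzk7_one X
      | succ k ih => rw [pow_succ, pow_succ]; exact rzk7_mul ih (hspec σ)
    have h2 : ((h₀ σ)⁻¹ * h σ) ^ Nat.card X.π.ker = 1 := by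
      have h6 := congrArg (fun y : X.π.ker => (y : G))
        (pow_card_eq_one' (x := (⟨(h₀ σ)⁻¹ * h σ, hz σ⟩ : X.π.ker)))
      simpa only [Subgroup.coe_pow, Subgroup.coe_one] using h6
    have h3 := h1 (Nat.card X.π.ker)
    rw [h2] at h3
    have h4 := rzk7_unique X hs h3 (rzk7_one X)
    have h5 : ((χ σ : Fˣ) : F) = rzk7_c X hker ((h₀ σ)⁻¹ * h σ) := rfl
    rw [h5, h4, map_one, one_mul]
  obtain ⟨a, ha⟩ := (InfiniteGalois.mem_range_algebraMap_iff_fixed _).2 hfix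
  exact ⟨δ, a, hδ, hδσ, ha.symm⟩

theorem twist_count (X : Core F s n G) (hn : 0 < n)
    (hker : ∀ g, X.π g = 1 → ∃ c : F, ActsBy X g c)
    {M : ℕ} (hM : 0 < M) (hMN : X.N ∣ M) (hMG : Fintype.card G ∣ M) (ε : ℝ) (hε : 0 < ε) :
    ∃ C : ℝ, 1 ≤ C ∧ ∀ (h₀ : (Ω ≃ₐ[F] Ω) →* G) (K : IntermediateField F Ω) [NumberField K]
      (e : (K →ₐ[F] Ω) ≃ Fin n),
      (∀ (σ : Ω ≃ₐ[F] Ω) (φ : K →ₐ[F] Ω), e (σ.toAlgHom.comp φ) = X.π (h₀ σ) (e φ)) →
      ∀ S : Finset ((Ω ≃ₐ[F] Ω) →* G), h₀ ∈ S →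
      (∀ h ∈ S, h ∈ HomsIn Ω X {u | Prim M u} ∧ ∀ σ, X.π (h₀ σ) = X.π (h σ)) →
      (S.card : ℝ) ≤ C * |(NumberField.discr K : ℝ)| ^ ε := by
  classical
  rcases Nat.eq_zero_or_pos s with rfl | hs
  · -- the group is trivial
    refine ⟨1, le_rfl, fun h₀ K _ e _ S _ _ => ?_⟩
    have hG : ∀ g : G, g = 1 := fun g => X.faithful g (by ext i; exact i.elim0)
    have h1 : S.card ≤ 1 := Finset.card_le_one.2 fun a _ b _ =>
      MonoidHom.ext fun σ => (hG _).trans (hG _).symm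
    have h2 : (1 : ℝ) ≤ |(NumberField.discr K : ℝ)| := by
      have := Int.one_le_abs (NumberField.discr_ne_zero K)
      exact_mod_cast this
    have h3 : (1 : ℝ) ≤ |(NumberField.discr K : ℝ)| ^ ε := Real.one_le_rpow h2 hε.le
    have h4 : (S.card : ℝ) ≤ 1 := by exact_mod_cast h1
    linarith
  have hq : 0 < Nat.card X.π.ker := Nat.card_pos
  set q := Nat.card X.π.ker with hqdef
  obtain ⟨C1, hC1, hk⟩ := kummer_classes F hq
  obtain ⟨C2, hC2, ho⟩ := rzk7_omega q (Module.finrank ℚ F) M.primeFactors.card hq ε hε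
  have hC1' : (1 : ℝ) ≤ C1 := by exact_mod_cast hC1
  refine ⟨C1 * C2, one_le_mul_of_one_le_of_one_le hC1' hC2, ?_⟩
  intro h₀ K _ e he S hS₀ hS
  obtain ⟨⟨hh₀, u₀, hu₀, x₀, hx₀, ht₀⟩, -⟩ := hS h₀ hS₀
  have hx₀0 := rzk7_ne_zero X hs hM hu₀ hx₀
  set D : ℕ := (NumberField.discr K).natAbs with hD
  have hD0 : D ≠ 0 := Int.natAbs_ne_zero.2 (NumberField.discr_ne_zero K)
  obtain ⟨A, hA1, hA2⟩ := rzk7_primes F M D hM.ne'
  -- the twisting elements
  have hex : ∀ h : (Ω ≃ₐ[F] Ω) →* G, ∃ (δ : Ω) (a : F), h ∈ S → δ ≠ 0 ∧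
      (∀ σ, σ δ = algebraMap F Ω (rzk7_c X hker ((h₀ σ)⁻¹ * h σ)) * δ) ∧
      δ ^ q = algebraMap F Ω a := by
    intro h
    by_cases hh : h ∈ S
    · obtain ⟨⟨hh1, u, hu, x, hx, ht⟩, hπ⟩ := hS h hh
      obtain ⟨δ, a, h1⟩ := rzk7_delta X hs hker hx₀0 (rzk7_ne_zero X hs hM hu hx) hh₀ hh1 ht₀ ht hπ
      exact ⟨δ, a, fun _ => h1⟩
    · exact ⟨1, 1, fun h' => absurd h' hh⟩
  choose δ a hδa using hex
  have ha0 : ∀ h ∈ S, a h ≠ 0 := by
    intro h hh h1
    obtain ⟨h2, -, h3⟩ := hδa h hh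
    rw [h1, map_zero] at h3
    exact h2 (pow_eq_zero_iff hq.ne' |>.1 h3)
  have hz : ∀ h ∈ S, ∀ σ, X.π ((h₀ σ)⁻¹ * h σ) = 1 := by
    intro h hh σ
    rw [map_mul, map_inv, (hS h hh).2, inv_mul_cancel]
  have hsep : ∀ h ∈ S, ∀ h' ∈ S, (∃ c : F, a h = c ^ q * a h') → h = h' := by
    rintro h hh h' hh' ⟨c, hc⟩
    obtain ⟨h1, h2, h3⟩ := hδa h hh
    obtain ⟨h4, h5, h6⟩ := hδa h' hh'
    have hc0 : c ≠ 0 := by
      rintro rfl
      rw [zero_pow hq.ne', zero_mul] at hc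
      exact ha0 h hh hc
    have hc0' : algebraMap F Ω c ≠ 0 := (map_ne_zero_iff _ (algebraMap F Ω).injective).2 hc0
    have h7 : (δ h / (algebraMap F Ω c * δ h')) ^ q = 1 := by
      rw [div_pow, h3, mul_pow, h6, ← map_pow, ← map_mul, ← hc]
      exact div_self ((map_ne_zero_iff _ (algebraMap F Ω).injective).2 (ha0 h hh))
    obtain ⟨z, hz'⟩ := rzk7_roots X hs hker h7
    have h8 : δ h = algebraMap F Ω (z * c) * δ h' := by
      rw [div_eq_iff (mul_ne_zero hc0' h4)] at hz'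
      rw [hz', map_mul]
      ring
    ext σ
    have h9 : algebraMap F Ω (rzk7_c X hker ((h₀ σ)⁻¹ * h σ)) * δ h =
        algebraMap F Ω (rzk7_c X hker ((h₀ σ)⁻¹ * h' σ)) * δ h := by
      rw [← h2 σ]
      conv_lhs => rw [h8, map_mul, AlgEquiv.commutes, h5 σ]
      rw [h8]
      ring
    have h10 := (algebraMap F Ω).injective (mul_right_cancel₀ h1 h9)
    have h11 := rzk7_c_spec X hker (hz h hh σ)
    rw [h10] at h11
    exact mul_left_cancel (rzk7_inj h11 (rzk7_c_spec X hker (hz h' hh' σ)))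
  have hinj : Set.InjOn a S := by
    intro h hh h' hh' h1
    exact hsep h hh h' hh' ⟨1, by rw [one_pow, one_mul]; exact h1⟩
  have hcard : (S.image a).card = S.card := Finset.card_image_of_injOn hinj
  have hT := hk A (S.image a) (by
    intro b hb
    obtain ⟨h, hh, rfl⟩ := Finset.mem_image.1 hb
    refine ⟨ha0 h hh, fun p hp => ?_⟩
    obtain ⟨⟨hh1, u, hu, x, hx, ht⟩, hπ⟩ := hS h hh
    obtain ⟨h1, h2, h3⟩ := hδa h hh
    refine twist_val X hn hker hMN hMG u₀ u hu₀ hu x₀ x hx₀ hx h₀ h hh₀ hh1 ht₀ ht hπ K e he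
      h1 h2 (fun σ => rzk7_c_spec X hker (hz h hh σ)) h3 p (hA2 p hp).1 ?_
    intro r hr hrp hdvd
    exact (hA2 p hp).2 r hr hrp hD0 (Int.natCast_dvd.1 hdvd)) (by
    intro b hb b' hb' hbb
    obtain ⟨h, hh, rfl⟩ := Finset.mem_image.1 hb
    obtain ⟨h', hh', rfl⟩ := Finset.mem_image.1 hb'
    rw [hsep h hh h' hh' hbb])
  rw [hcard] at hT
  have hfin := ho D A.card (Nat.one_le_iff_ne_zero.2 hD0) hA1
  have hDr : (D : ℝ) = |(NumberField.discr K : ℝ)| := by
    rw [hD, Nat.cast_natAbs, Int.cast_abs]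
  rw [hDr] at hfin
  calc (S.card : ℝ) ≤ ((C1 * q ^ A.card : ℕ) : ℝ) := by exact_mod_cast hT
    _ = C1 * (q : ℝ) ^ A.card := by push_cast; ring
    _ ≤ C1 * (C2 * |(NumberField.discr K : ℝ)| ^ ε) :=
        mul_le_mul_of_nonneg_left hfin (by positivity)
    _ = _ := by ring

end Main

end Pool.Agent.H13.RZ
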