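import Pool.Agent.H13.RG.Core
import Pool.Agent.H13.RG.MovPos
import Pool.Agent.H41.Rel.RelMain
import Pool.Agent.H41.Rel.RelMainZ

/-!
# Project RG: the main theorem

Lower bounds for Malle's counting function for all finite irreducible reflection groups, in every
transitive action whose kernel acts by scalars, and for their wreath products with the group of any
extension, over every number field.
-/

set_option autoImplicit false

open NumberField

namespace Pool.Agent.H13.RZ

open Pool.Agent.H35.AN Pool.Agent.H41.Rel Pool.Agent.H13.RG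

/-- an element acting as a scalar on `V` acts as the same scalar in coordinates -/
theorem rzm_actsBy {F : Type} [Field F] [NumberField F] {G : Type} [Group G] [Fintype G]
    {V : Type} [AddCommGroup V] [Module F V] {s n : ℕ} (ρ : Representation F G V) (X : Core F s n G)
    (B : Module.Basis (Fin s) F V)
    (hB : ∀ g, (X.I.ρ g).map (RN F X.N).subtype = LinearMap.toMatrix B B (ρ g)) {g : G} {c : F}
    (hc : ∀ v, ρ g v = c • v) : ActsBy X g c := by
  intro v
  have h1 : ρ g = c • (1 : V →ₗ[F] V) := by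
    apply LinearMap.ext
    intro w
    rw [hc w]
    rfl
  unfold Inv.act
  rw [hB g, h1, map_smul, LinearMap.toMatrix_one, Matrix.smul_mulVec, Matrix.one_mulVec]

/-- The main theorem. -/
theorem mainZ (k F : Type) [Field k] [NumberField k] [Field F] [NumberField F] [Algebra k F]
    {b : ℕ} (H : Subgroup (Equiv.Perm (Fin b))) (hF : HasGroup k (AlgebraicClosure k) F H)
    {G V : Type} [Group G] [Finite G] [AddCommGroup V] [Module F V] [FiniteDimensional F V]
    (ρ : Representation F G V) (hρ : ReflGroup ρ) {n : ℕ} (hn : 2 ≤ n)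
    (π : G →* Equiv.Perm (Fin n))
    (htr : MulAction.IsPretransitive π.range (Fin n)) (δ : ℝ)
    (hπ : (Function.Injective π ∧ 0 ≤ δ) ∨ (2 ≤ Module.finrank F V ∧ 0 < δ ∧
      ∀ g, π g = 1 → ∃ c : F, ∀ v, ρ g v = c • v)) {N : ℕ} (ε : Fin b × Fin n ≃ Fin N) :
    ∃ c : ℝ, 0 < c ∧ ∀ᶠ B : ℝ in Filter.atTop,
      c * B ^ (((numRefl ρ : ℝ) + Module.finrank F V) / (movRefl ρ π : ℝ) - δ) ≤
        (malleCount k N (wreath ε π.range H) B : ℝ) := by
  have _ : Fintype G := Fintype.ofFinite G
  obtain ⟨X, hX, hd, hc, Bs, hBs⟩ := exists_core ρ hρ π (movRefl_pos ρ hρ hn π htr) htr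
  rcases hπ with ⟨hinj, hδ⟩ | ⟨hs, hδ, hker⟩
  · obtain ⟨c, hc0, h⟩ := rel_core_main k F hn ε H hF X (hX ▸ hinj)
    refine ⟨c, hc0, ?_⟩
    rw [hX, hd, hc] at h
    push_cast at h
    filter_upwards [h, Filter.eventually_ge_atTop 1] with B hB hB1
    refine le_trans ?_ hB
    have h1 := Real.rpow_le_rpow_of_exponent_le hB1
      (show ((numRefl ρ : ℝ) + Module.finrank F V) / (movRefl ρ π : ℝ) - δ ≤
        ((numRefl ρ : ℝ) + Module.finrank F V) / (movRefl ρ π : ℝ) by linarith)
    exact mul_le_mul_of_nonneg_left h1 hc0.le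
  · obtain ⟨c, hc0, h⟩ := rel_core_mainZ k F hs hn ε H hF X (by
      intro g hg
      rw [hX] at hg
      obtain ⟨c, hc⟩ := hker g hg
      exact ⟨c, rzm_actsBy ρ X Bs hBs hc⟩) δ hδ
    refine ⟨c, hc0, ?_⟩
    rw [hX, hd, hc] at h
    push_cast at h
    exact h

end Pool.Agent.H13.RZ
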