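import Pool.Agent.H13.RZ.Defs
import Pool.Agent.H35.AN.Sieve1

/-!
# Project RG, phase 2, row RZ-P3: sums over prime ideals
-/

set_option autoImplicit false

open MvPolynomial NumberField IsDedekindDomain

namespace Pool.Agent.H13.RZ

open Pool.Agent.H13.RG Pool.Agent.H35.AN

section

variable (F : Type) [Field F] [NumberField F]

/-- comparison of a sum over prime ideals with a sum over the rational primes below -/
private theorem rzp3_fiber (T : Finset (HeightOneSpectrum (𝓞 F))) (g : ℕ → ℝ)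
    (hg : ∀ r, 0 ≤ g r) (G : HeightOneSpectrum (𝓞 F) → ℝ)
    (hG : ∀ p ∈ T, ∀ r : ℕ, r.Prime → (r : 𝓞 F) ∈ p.asIdeal → G p ≤ g r) (A : Finset ℕ)
    (hA : ∀ p ∈ T, ∀ r : ℕ, r.Prime → (r : 𝓞 F) ∈ p.asIdeal → r ∈ A) :
    ∑ p ∈ T, G p ≤ Module.finrank ℚ F * ∑ r ∈ A, g r := by
  classical
  choose rat hrat hmem using fun p : HeightOneSpectrum (𝓞 F) => an30_exists_rat F p
  have h1 : ∑ r ∈ A, ∑ p ∈ T with rat p = r, G p = ∑ p ∈ T, G p :=
    Finset.sum_fiberwise_of_maps_to (fun p hp => hA p hp _ (hrat p) (hmem p)) G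
  rw [← h1, Finset.mul_sum]
  refine Finset.sum_le_sum fun r _ => ?_
  by_cases hr : r.Prime
  · obtain ⟨s, hs, hs'⟩ := an30_primes_over F hr
    have hsub : (T.filter fun p => rat p = r) ⊆ s := by
      intro p hp
      rw [Finset.mem_filter] at hp
      apply hs'
      rw [← hp.2]
      exact hmem p
    calc ∑ p ∈ T with rat p = r, G p ≤ ∑ _p ∈ T with rat _p = r, g r := by
          refine Finset.sum_le_sum fun p hp => ?_
          rw [Finset.mem_filter] at hp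
          refine hG p hp.1 r hr ?_
          rw [← hp.2]
          exact hmem p
      _ = ((T.filter fun p => rat p = r).card : ℝ) * g r := by
          rw [Finset.sum_const, nsmul_eq_mul]
      _ ≤ Module.finrank ℚ F * g r := by
          refine mul_le_mul_of_nonneg_right ?_ (hg r)
          exact_mod_cast (Finset.card_le_card hsub).trans hs
  · have : (T.filter fun p => rat p = r) = ∅ := by
      rw [Finset.filter_eq_empty_iff]
      intro p _ h
      exact hr (h ▸ hrat p)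
    rw [this, Finset.sum_empty]
    exact mul_nonneg (Nat.cast_nonneg _) (hg r)

theorem prime_sum_sq : ∃ C : ℝ, 0 < C ∧ ∀ (Y : ℕ), 1 ≤ Y →
    ∀ T : Finset (HeightOneSpectrum (𝓞 F)),
      (∀ p ∈ T, ∀ r : ℕ, r.Prime → (r : 𝓞 F) ∈ p.asIdeal → Y < r) →
      ∑ p ∈ T, ((Ideal.absNorm p.asIdeal : ℝ) ^ 2)⁻¹ ≤ C / Y := by
  classical
  refine ⟨Module.finrank ℚ F, by exact_mod_cast Module.finrank_pos, ?_⟩
  intro Y hY T hT
  -- a bound for the norms
  set R : ℕ := T.sup (fun p => Ideal.absNorm p.asIdeal) with hR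
  have h := rzp3_fiber F T (fun r => ((r : ℝ) ^ 2)⁻¹) (fun r => by positivity)
    (fun p => ((Ideal.absNorm p.asIdeal : ℝ) ^ 2)⁻¹) (by
      intro p hp r hr hrp
      have h1 : (r : ℝ) ≤ (Ideal.absNorm p.asIdeal : ℝ) := by
        exact_mod_cast an30_le_absNorm F hr p hrp
      have h2 : (0 : ℝ) < r := by exact_mod_cast hr.pos
      show ((Ideal.absNorm p.asIdeal : ℝ) ^ 2)⁻¹ ≤ ((r : ℝ) ^ 2)⁻¹
      gcongr) (Finset.Ioc Y R) (by
      intro p hp r hr hrp
      rw [Finset.mem_Ioc]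
      refine ⟨hT p hp r hr hrp, (an30_le_absNorm F hr p hrp).trans ?_⟩
      exact Finset.le_sup (f := fun p : HeightOneSpectrum (𝓞 F) => Ideal.absNorm p.asIdeal) hp)
  refine h.trans ?_
  rw [div_eq_mul_inv]
  refine mul_le_mul_of_nonneg_left ?_ (Nat.cast_nonneg _)
  rcases le_total Y R with hYR | hYR
  · have h3 : ∑ i ∈ Finset.Ioc Y R, ((i : ℝ) ^ 2)⁻¹ ≤ (Y : ℝ)⁻¹ - (R : ℝ)⁻¹ :=
      sum_Ioc_inv_sq_le_sub (by omega) hYR
    have h4 : (0 : ℝ) ≤ (R : ℝ)⁻¹ := by positivity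
    linarith
  · rw [Finset.Ioc_eq_empty (by omega), Finset.sum_empty]
    positivity

theorem prime_sum : ∃ C : ℝ, 0 < C ∧ ∀ (Y : ℝ), 1 ≤ Y →
    ∀ T : Finset (HeightOneSpectrum (𝓞 F)), (∀ p ∈ T, (Ideal.absNorm p.asIdeal : ℝ) ≤ Y) →
      ∑ p ∈ T, ((Ideal.absNorm p.asIdeal : ℝ))⁻¹ ≤ C * (1 + Real.log Y) := by
  classical
  refine ⟨Module.finrank ℚ F, by exact_mod_cast Module.finrank_pos, ?_⟩
  intro Y hY T hT
  have h := rzp3_fiber F T (fun r => ((r : ℝ))⁻¹) (fun r => by positivity)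
    (fun p => ((Ideal.absNorm p.asIdeal : ℝ))⁻¹) (by
      intro p hp r hr hrp
      have h1 : (r : ℝ) ≤ (Ideal.absNorm p.asIdeal : ℝ) := by
        exact_mod_cast an30_le_absNorm F hr p hrp
      have h2 : (0 : ℝ) < r := by exact_mod_cast hr.pos
      show ((Ideal.absNorm p.asIdeal : ℝ))⁻¹ ≤ ((r : ℝ))⁻¹
      gcongr) (Finset.Icc 1 ⌊Y⌋₊) (by
      intro p hp r hr hrp
      rw [Finset.mem_Icc]
      refine ⟨hr.pos, Nat.le_floor ?_⟩
      refine le_trans ?_ (hT p hp)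
      exact_mod_cast an30_le_absNorm F hr p hrp)
  refine h.trans ?_
  refine mul_le_mul_of_nonneg_left ?_ (Nat.cast_nonneg _)
  have h3 := harmonic_floor_le_one_add_log Y hY
  rw [harmonic_eq_sum_Icc] at h3
  push_cast at h3
  exact h3

end

end Pool.Agent.H13.RZ
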