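import Pool.Agent.H13.RZ.Defs
import Pool.Agent.H13.RZ.BoxUnif
import Pool.Agent.H13.RZ.Coset
import Pool.Agent.H13.RZ.PrimeSum

/-!
# Project RG, phase 2, RZ-P4: a positive proportion of the parameters is primitive
-/

set_option autoImplicit false

open MvPolynomial NumberField IsDedekindDomain

namespace Pool.Agent.H13.RZ

open Pool.Agent.H13.RG

section Prims

variable (F : Type) [Field F] [NumberField F]

variable {F} in
/-- the norm of an element of a box -/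
theorem rzp4_norm_le {a : 𝓞 F} {T : ℝ} (ha : ∀ v : F →+* ℂ, ‖v (a : F)‖ ≤ T) :
    (Ideal.absNorm (Ideal.span {a}) : ℝ) ≤ T ^ Module.finrank ℚ F := by
  rw [Ideal.absNorm_span_singleton]
  have h1 : ((Algebra.norm ℤ a).natAbs : ℝ) = ‖(((Algebra.norm ℤ a : ℤ) : ℚ) : ℂ)‖ := by
    rw [Nat.cast_natAbs]
    simp
  rw [h1]
  have h2 : (((Algebra.norm ℤ a : ℤ) : ℚ) : ℂ) = ∏ φ : F →+* ℂ, φ (a : F) := by
    have h3 : ((Algebra.norm ℤ a : ℤ) : ℚ) = Algebra.norm ℚ (a : F) := by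
      exact Algebra.coe_norm_int a
    rw [h3]
    have h4 := Algebra.norm_eq_prod_embeddings ℚ ℂ (a : F)
    have h5 : ((Algebra.norm ℚ (a : F) : ℚ) : ℂ) = algebraMap ℚ ℂ (Algebra.norm ℚ (a : F)) := rfl
    rw [h5, h4]
    exact Fintype.prod_equiv (RingHom.equivRatAlgHom (R := F) (S := ℂ)).symm _ _ (fun φ => rfl)
  rw [h2, norm_prod]
  calc ∏ φ : F →+* ℂ, ‖φ (a : F)‖ ≤ ∏ _φ : F →+* ℂ, T :=
        Finset.prod_le_prod (fun φ _ => norm_nonneg _) (fun φ _ => ha φ)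
    _ = T ^ Module.finrank ℚ F := by
        rw [Finset.prod_const, Finset.card_univ, NumberField.Embeddings.card]

variable {F} in
theorem rzp4_pos (p : HeightOneSpectrum (𝓞 F)) : 0 < Ideal.absNorm p.asIdeal :=
  Nat.pos_of_ne_zero fun h => p.ne_bot (Ideal.absNorm_eq_zero_iff.mp h)

variable {F} in
/-- a prime containing a non-zero element of a box has small norm -/
theorem rzp4_prime_le {a : 𝓞 F} {T : ℝ} (ha : ∀ v : F →+* ℂ, ‖v (a : F)‖ ≤ T) (ha0 : a ≠ 0)
    (p : HeightOneSpectrum (𝓞 F)) (hp : a ∈ p.asIdeal) :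
    (Ideal.absNorm p.asIdeal : ℝ) ≤ T ^ Module.finrank ℚ F := by
  refine le_trans ?_ (rzp4_norm_le ha)
  have h1 : Ideal.span {a} ≤ p.asIdeal := (Ideal.span_singleton_le_iff_mem _).mpr hp
  have h2 := Ideal.absNorm_dvd_absNorm_of_le h1
  have h3 : 0 < Ideal.absNorm (Ideal.span {a}) := by
    rw [Nat.pos_iff_ne_zero, Ne, Ideal.absNorm_eq_zero_iff, Ideal.span_singleton_eq_bot]
    exact ha0
  exact_mod_cast Nat.le_of_dvd h3 h2

variable {F} in
/-- norm of `(M) ∩ p` -/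
theorem rzp4_absNorm (M : ℕ) (p : HeightOneSpectrum (𝓞 F)) (hp : (M : 𝓞 F) ∉ p.asIdeal) :
    Ideal.absNorm (Ideal.span {(M : 𝓞 F)} ⊓ p.asIdeal) =
      M ^ Module.finrank ℚ F * Ideal.absNorm p.asIdeal := by
  have hmax : p.asIdeal.IsMaximal := p.isMaximal
  have hco : IsCoprime (Ideal.span {(M : 𝓞 F)}) p.asIdeal := by
    rw [Ideal.isCoprime_iff_sup_eq, sup_comm]
    refine hmax.out.2 _ (left_lt_sup.2 fun h => hp ?_)
    exact (Ideal.span_singleton_le_iff_mem _).mp h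
  rw [← Ideal.mul_eq_inf_of_isCoprime hco, map_mul, Ideal.absNorm_span_natCast,
    RingOfIntegers.rank]

variable {F} in
/-- elements of a box in a class modulo `M` and in a prime outside `M` -/
theorem rzp4_cell {M : ℕ} (hM : 0 < M) (p : HeightOneSpectrum (𝓞 F))
    (hp : (M : 𝓞 F) ∉ p.asIdeal) {T : ℝ} (hT : 0 ≤ T) (α : 𝓞 F) (S : Finset (𝓞 F))
    (hS : ∀ a ∈ S, ((M : 𝓞 F) ∣ a - α ∧ ∀ v : F →+* ℂ, ‖v (a : F)‖ ≤ T) ∧ a ∈ p.asIdeal) :
    (S.card : ℝ) ≤ 5 ^ Module.finrank ℚ F *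
      (1 + (T / M) ^ Module.finrank ℚ F * (Ideal.absNorm p.asIdeal : ℝ)⁻¹) := by
  have hN := rzp4_absNorm M p hp
  have hNp := rzp4_pos p
  have hI : Ideal.span {(M : 𝓞 F)} ⊓ p.asIdeal ≠ ⊥ := by
    intro h
    rw [h, Ideal.absNorm_bot] at hN
    have : 0 < M ^ Module.finrank ℚ F * Ideal.absNorm p.asIdeal := Nat.mul_pos (pow_pos hM _) hNp
    omega
  refine (coset_count' F _ hI hT S (fun a ha => (hS a ha).1.2) ?_).trans ?_
  · intro a ha b hb
    refine Ideal.mem_inf.mpr ⟨?_, p.asIdeal.sub_mem (hS a ha).2 (hS b hb).2⟩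
    rw [Ideal.mem_span_singleton]
    have h1 := dvd_sub (hS a ha).1.1 (hS b hb).1.1
    rwa [sub_sub_sub_cancel_right] at h1
  · refine mul_le_mul_of_nonneg_left ?_ (by positivity)
    rw [hN]
    have h2 : T ^ Module.finrank ℚ F / ((M ^ Module.finrank ℚ F * Ideal.absNorm p.asIdeal : ℕ) : ℝ)
        = (T / M) ^ Module.finrank ℚ F * (Ideal.absNorm p.asIdeal : ℝ)⁻¹ := by
      push_cast
      rw [div_pow, div_mul_eq_div_div, div_eq_mul_inv _ (Ideal.absNorm p.asIdeal : ℝ)]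
    rw [h2]
    have h3 : 0 ≤ (T / M) ^ Module.finrank ℚ F * (Ideal.absNorm p.asIdeal : ℝ)⁻¹ := by positivity
    exact max_le (by linarith) (by linarith)

variable {F} in
/-- elements of a box in a class modulo `M` -/
theorem rzp4_cell1 {M : ℕ} (hM : 0 < M) {T : ℝ} (hT : (M : ℝ) ≤ T) (α : 𝓞 F)
    (S : Finset (𝓞 F))
    (hS : ∀ a ∈ S, ((M : 𝓞 F) ∣ a - α ∧ ∀ v : F →+* ℂ, ‖v (a : F)‖ ≤ T)) :
    (S.card : ℝ) ≤ 5 ^ Module.finrank ℚ F * (T / M) ^ Module.finrank ℚ F := by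
  have hM' : (0 : ℝ) < M := by exact_mod_cast hM
  have hN : Ideal.absNorm (Ideal.span {(M : 𝓞 F)}) = M ^ Module.finrank ℚ F := by
    rw [Ideal.absNorm_span_natCast, RingOfIntegers.rank]
  have hI : Ideal.span {(M : 𝓞 F)} ≠ ⊥ := by
    intro h
    rw [h, Ideal.absNorm_bot] at hN
    have : 0 < M ^ Module.finrank ℚ F := pow_pos hM _
    omega
  refine (coset_count' F _ hI (hM'.le.trans hT) S (fun a ha => (hS a ha).2) ?_).trans ?_
  · intro a ha b hb
    rw [Ideal.mem_span_singleton]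
    have h1 := dvd_sub (hS a ha).1 (hS b hb).1
    rwa [sub_sub_sub_cancel_right] at h1
  · refine mul_le_mul_of_nonneg_left ?_ (by positivity)
    rw [hN]
    push_cast
    rw [← div_pow]
    exact max_le (one_le_pow₀ ((one_le_div hM').2 hT)) le_rfl

/-- a product with two special factors -/
theorem rzp4_prod {s : ℕ} {a b : Fin s} (hab : a ≠ b) (c G : Fin s → ℝ) (E x y : ℝ)
    (hE : 1 ≤ E) (hG : ∀ i, 0 ≤ G i) (hc : ∀ i, 0 ≤ c i) (hx : c a ≤ x) (hy : c b ≤ y)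
    (h : ∀ i, i ≠ a → i ≠ b → c i ≤ E * G i) :
    ∏ i, c i ≤ x * y * (E ^ s * ∏ i ∈ (Finset.univ.erase a).erase b, G i) := by
  have hb : b ∈ (Finset.univ.erase a : Finset (Fin s)) :=
    Finset.mem_erase.2 ⟨hab.symm, Finset.mem_univ b⟩
  rw [← Finset.mul_prod_erase Finset.univ c (Finset.mem_univ a),
    ← Finset.mul_prod_erase (Finset.univ.erase a) c hb, ← mul_assoc]
  have h1 : ∏ i ∈ (Finset.univ.erase a).erase b, c i ≤
      ∏ i ∈ (Finset.univ.erase a).erase b, (E * G i) := by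
    refine Finset.prod_le_prod (fun i _ => hc i) fun i hi => ?_
    rw [Finset.mem_erase, Finset.mem_erase] at hi
    exact h i hi.2.1 hi.1
  rw [Finset.prod_mul_distrib, Finset.prod_const] at h1
  have h2 : E ^ ((Finset.univ.erase a).erase b).card ≤ E ^ s := by
    refine pow_le_pow_right₀ hE ?_
    have := Finset.card_le_univ ((Finset.univ.erase a).erase b)
    rwa [Fintype.card_fin] at this
  have h3 : 0 ≤ ∏ i ∈ (Finset.univ.erase a).erase b, G i := Finset.prod_nonneg fun i _ => hG i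
  have h4 : 0 ≤ ∏ i ∈ (Finset.univ.erase a).erase b, c i := Finset.prod_nonneg fun i _ => hc i
  refine mul_le_mul (mul_le_mul hx hy (hc b) ((hc a).trans hx)) (h1.trans ?_) h4
    (mul_nonneg ((hc a).trans hx) ((hc b).trans hy))
  exact mul_le_mul_of_nonneg_right h2 h3

theorem rzp4_card {R : Type} {s : ℕ} {a b : Fin s} (hab : a ≠ b) (A : Fin s → Finset R)
    (G : Fin s → ℝ) (E x y W : ℝ)
    (hE : 1 ≤ E) (hG : ∀ i, 0 ≤ G i) (hW : W = ∏ i ∈ (Finset.univ.erase a).erase b, G i)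
    (hx : ((A a).card : ℝ) ≤ x) (hy : ((A b).card : ℝ) ≤ y)
    (h : ∀ i, i ≠ a → i ≠ b → ((A i).card : ℝ) ≤ E * G i) :
    ((Fintype.piFinset A).card : ℝ) ≤ x * y * (E ^ s * W) := by
  classical
  rw [Fintype.card_piFinset, Nat.cast_prod, hW]
  exact rzp4_prod hab (fun i => ((A i).card : ℝ)) G E x y hE hG (fun i => Nat.cast_nonneg _) hx hy h

/-- the analytic inequality at the end -/
theorem rzp4_final {K L : ℝ} (hK : 0 ≤ K) (hL : 0 < L) {D : ℕ} (hD : 1 ≤ D) :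
    ∃ H0 : ℝ, 1 ≤ H0 ∧ ∀ H : ℝ, H0 ≤ H →
      K * (1 + H ^ (D - 1) * (1 + D * Real.log H)) ≤ L * H ^ D := by
  set ε : ℝ := L / (K * (2 + D) + 1) with hε
  have hpos : 0 < K * (2 + D) + 1 := by positivity
  have hε0 : 0 < ε := div_pos hL hpos
  have h1 := Real.isLittleO_log_id_atTop.bound hε0
  rw [Filter.eventually_atTop] at h1
  obtain ⟨A, hA⟩ := h1
  refine ⟨max (max 1 A) ε⁻¹, (le_max_left _ _).trans (le_max_left _ _), fun H hH => ?_⟩
  have hH1 : 1 ≤ H := ((le_max_left _ _).trans (le_max_left _ _)).trans hH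
  have hHA : A ≤ H := ((le_max_right _ _).trans (le_max_left _ _)).trans hH
  have hHe : ε⁻¹ ≤ H := (le_max_right _ _).trans hH
  have h2 : Real.log H ≤ ε * H := by
    have h3 := hA H hHA
    rw [Real.norm_eq_abs, Real.norm_eq_abs, id, abs_of_nonneg (by linarith : (0 : ℝ) ≤ H)] at h3
    exact (le_abs_self _).trans h3
  have h3 : 1 ≤ ε * H := by
    have := mul_le_mul_of_nonneg_left hHe hε0.le
    rwa [mul_inv_cancel₀ hε0.ne'] at this
  have h4 : (1 : ℝ) ≤ H ^ (D - 1) := one_le_pow₀ hH1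
  have h5 : H ^ D = H ^ (D - 1) * H := by
    rw [← pow_succ]
    congr 1
    omega
  have hD0 : (0 : ℝ) ≤ D := by positivity
  have h6 : 1 + H ^ (D - 1) * (1 + D * Real.log H) ≤ H ^ (D - 1) * ((2 + D) * (ε * H)) := by
    have h7 : (D : ℝ) * Real.log H ≤ D * (ε * H) := mul_le_mul_of_nonneg_left h2 hD0
    have h8 : H ^ (D - 1) * (1 + D * Real.log H) ≤ H ^ (D - 1) * (ε * H + D * (ε * H)) :=
      mul_le_mul_of_nonneg_left (by linarith) (by linarith)
    have h9 : 1 ≤ H ^ (D - 1) * (ε * H) := by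
      have := mul_le_mul h4 h3 zero_le_one (by linarith)
      linarith
    nlinarith
  calc K * (1 + H ^ (D - 1) * (1 + D * Real.log H))
      ≤ K * (H ^ (D - 1) * ((2 + D) * (ε * H))) := mul_le_mul_of_nonneg_left h6 hK
    _ = (K * (2 + D)) * ε * H ^ D := by rw [h5]; ring
    _ ≤ (K * (2 + D) + 1) * ε * H ^ D := by
        refine mul_le_mul_of_nonneg_right (mul_le_mul_of_nonneg_right (by linarith) hε0.le) ?_
        positivity
    _ = L * H ^ D := by
        rw [hε, mul_div_cancel₀ _ hpos.ne']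

/-- finitely many primes of bounded norm -/
theorem rzp4_fin (K : ℕ) :
    {p : HeightOneSpectrum (𝓞 F) | Ideal.absNorm p.asIdeal ≤ K}.Finite := by
  refine Set.Finite.subset ((Ideal.finite_setOfPred_absNorm_le (S := 𝓞 F) K).preimage
    (f := fun p : HeightOneSpectrum (𝓞 F) => p.asIdeal) ?_) ?_
  · intro p _ q _ h
    exact HeightOneSpectrum.ext h
  · intro p hp
    exact hp

variable {F} in
open scoped Classical in
/-- the parameters which are not primitive -/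
theorem rzp4_bad {s : ℕ} {d : Fin s → ℕ} (hd : ∀ i, 0 < d i) {a b : Fin s} (hab : a ≠ b)
    {M : ℕ} (hM : 0 < M) (α : Fin s → 𝓞 F) {C1 C2 : ℝ} {Y : ℕ} (hYM : Y.factorial ∣ M)
    (hsum1 : ∀ (Y : ℝ), 1 ≤ Y → ∀ T : Finset (HeightOneSpectrum (𝓞 F)),
      (∀ p ∈ T, (Ideal.absNorm p.asIdeal : ℝ) ≤ Y) →
      ∑ p ∈ T, ((Ideal.absNorm p.asIdeal : ℝ))⁻¹ ≤ C1 * (1 + Real.log Y))
    (hsum2 : ∀ T : Finset (HeightOneSpectrum (𝓞 F)),
      (∀ p ∈ T, ∀ r : ℕ, r.Prime → (r : 𝓞 F) ∈ p.asIdeal → Y < r) →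
      ∑ p ∈ T, ((Ideal.absNorm p.asIdeal : ℝ) ^ 2)⁻¹ ≤ C2 / Y)
    {H : ℝ} (hH : (M : ℝ) ≤ H) (B : Fin s → Finset (𝓞 F))
    (hB : ∀ i x, x ∈ B i ↔ (M : 𝓞 F) ∣ x - α i ∧ ∀ v : F →+* ℂ, ‖v (x : F)‖ ≤ H ^ d i) :
    (((Fintype.piFinset B).filter fun u => ¬ Prim M u).card : ℝ) ≤
      (5 ^ Module.finrank ℚ F) ^ (s + 2) *
        (∏ i ∈ (Finset.univ.erase a).erase b, (H ^ d i / M) ^ Module.finrank ℚ F) *
        (1 + 3 * H ^ (Module.finrank ℚ F * (d a + d b) - 1) *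
          (C1 * (1 + Real.log (H ^ (Module.finrank ℚ F * (d a + d b) - 1)))) +
          (H ^ d a / M) ^ Module.finrank ℚ F * (H ^ d b / M) ^ Module.finrank ℚ F *
            (C2 / Y)) := by
  have hm0 : 0 < Module.finrank ℚ F := Module.finrank_pos
  have hM1 : (1 : ℝ) ≤ M := by exact_mod_cast hM
  have hM0 : (0 : ℝ) < M := by linarith
  have hH1 : 1 ≤ H := hM1.trans hH
  have hH0 : 0 < H := by linarith
  have hHd : ∀ i, (M : ℝ) ≤ H ^ d i := fun i => by
    calc (M : ℝ) ≤ H := hH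
      _ = H ^ 1 := (pow_one H).symm
      _ ≤ H ^ d i := pow_le_pow_right₀ hH1 (hd i)
  set G : Fin s → ℝ := fun i => (H ^ d i / M) ^ Module.finrank ℚ F with hG
  have hG0 : ∀ i, 0 ≤ G i := fun i => by rw [hG]; positivity
  set E : ℝ := 5 ^ Module.finrank ℚ F with hE
  have hE1 : 1 ≤ E := one_le_pow₀ (by norm_num)
  set D := Module.finrank ℚ F * (d a + d b) with hD
  set X : ℝ := H ^ (D - 1) with hX
  have hX1 : 1 ≤ X := one_le_pow₀ hH1
  have hle : ∀ j, j = a ∨ j = b → Module.finrank ℚ F * d j ≤ D - 1 := by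
    intro j hj
    have h1 : 0 < Module.finrank ℚ F * d a := Nat.mul_pos hm0 (hd a)
    have h2 : 0 < Module.finrank ℚ F * d b := Nat.mul_pos hm0 (hd b)
    rw [hD, mul_add]
    rcases hj with rfl | rfl <;> omega
  have hpw : ∀ j, j = a ∨ j = b → (H ^ d j) ^ Module.finrank ℚ F ≤ X := by
    intro j hj
    rw [← pow_mul, mul_comm (d j)]
    exact pow_le_pow_right₀ hH1 (hle j hj)
  have hGX : ∀ j, j = a ∨ j = b → G j ≤ X := by
    intro j hj
    refine le_trans ?_ (hpw j hj)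
    refine pow_le_pow_left₀ (by positivity) (div_le_self (by positivity) hM1) _
  set W : ℝ := ∏ i ∈ (Finset.univ.erase a).erase b, G i with hW
  have hW0 : 0 ≤ W := Finset.prod_nonneg fun i _ => hG0 i
  -- the primes
  set T : Finset (HeightOneSpectrum (𝓞 F)) :=
    (rzp4_fin F ⌊X⌋₊).toFinset.filter fun p => (M : 𝓞 F) ∉ p.asIdeal with hT
  have hTX : ∀ p ∈ T, (Ideal.absNorm p.asIdeal : ℝ) ≤ X := by
    intro p hp
    rw [hT, Finset.mem_filter, Set.Finite.mem_toFinset] at hp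
    exact (Nat.le_floor_iff (by linarith)).mp hp.1
  have hTM : ∀ p ∈ T, (M : 𝓞 F) ∉ p.asIdeal := by
    intro p hp
    rw [hT, Finset.mem_filter] at hp
    exact hp.2
  -- the two covers
  set Z : Finset (Fin s → 𝓞 F) :=
    Fintype.piFinset fun i => (B i).filter fun x => (i = a ∨ i = b) → x = 0 with hZ
  set Q : HeightOneSpectrum (𝓞 F) → Finset (Fin s → 𝓞 F) := fun p =>
    Fintype.piFinset fun i => (B i).filter fun x => (i = a ∨ i = b) → x ∈ p.asIdeal with hQ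
  have hcov : ((Fintype.piFinset B).filter fun u => ¬ Prim M u) ⊆ Z ∪ T.biUnion Q := by
    intro u hu
    rw [Finset.mem_filter, Fintype.mem_piFinset] at hu
    obtain ⟨hu, hp⟩ := hu
    unfold Prim at hp
    push Not at hp
    obtain ⟨p, hpM, hpu⟩ := hp
    rw [Finset.mem_union]
    by_cases h0 : u a = 0 ∧ u b = 0
    · left
      rw [hZ, Fintype.mem_piFinset]
      intro i
      rw [Finset.mem_filter]
      refine ⟨hu i, ?_⟩
      rintro (rfl | rfl)
      · exact h0.1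
      · exact h0.2
    · right
      rw [Finset.mem_biUnion]
      refine ⟨p, ?_, ?_⟩
      · rw [hT, Finset.mem_filter, Set.Finite.mem_toFinset]
        refine ⟨?_, hpM⟩
        have h1 : ∃ j, (j = a ∨ j = b) ∧ u j ≠ 0 := by
          by_contra hcon
          push Not at hcon
          exact h0 ⟨hcon a (Or.inl rfl), hcon b (Or.inr rfl)⟩
        obtain ⟨j, hj, hj0⟩ := h1
        refine (Nat.le_floor_iff (by linarith)).mpr ?_
        exact (rzp4_prime_le ((hB j _).mp (hu j)).2 hj0 p (hpu j)).trans (hpw j hj)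
      · rw [hQ, Fintype.mem_piFinset]
        intro i
        rw [Finset.mem_filter]
        exact ⟨hu i, fun _ => hpu i⟩
  have hcard1 : (Z.card : ℝ) ≤ 1 * 1 * (E ^ s * W) := by
    refine rzp4_card hab (fun i => (B i).filter fun x => (i = a ∨ i = b) → x = 0) G E 1 1 W hE1
      hG0 hW ?_ ?_ ?_
    · have h1 : ((B a).filter fun x => (a = a ∨ a = b) → x = 0) ⊆ {0} := by
        intro x hx
        rw [Finset.mem_filter] at hx
        rw [Finset.mem_singleton]
        exact hx.2 (Or.inl rfl)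
      have h2 := Finset.card_le_card h1
      rw [Finset.card_singleton] at h2
      exact_mod_cast h2
    · have h1 : ((B b).filter fun x => (b = a ∨ b = b) → x = 0) ⊆ {0} := by
        intro x hx
        rw [Finset.mem_filter] at hx
        rw [Finset.mem_singleton]
        exact hx.2 (Or.inr rfl)
      have h2 := Finset.card_le_card h1
      rw [Finset.card_singleton] at h2
      exact_mod_cast h2
    · intro i _ _
      refine rzp4_cell1 hM (hHd i) (α i) _ fun x hx => ?_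
      rw [Finset.mem_filter] at hx
      exact (hB i x).mp hx.1
  have hcard2 : ∀ p ∈ T, ((Q p).card : ℝ) ≤
      (E * (1 + G a * (Ideal.absNorm p.asIdeal : ℝ)⁻¹)) *
        (E * (1 + G b * (Ideal.absNorm p.asIdeal : ℝ)⁻¹)) * (E ^ s * W) := by
    intro p hp
    refine rzp4_card hab (fun i => (B i).filter fun x => (i = a ∨ i = b) → x ∈ p.asIdeal) G E
      _ _ W hE1 hG0 hW ?_ ?_ ?_
    · refine rzp4_cell hM p (hTM p hp) (by positivity) (α a) _ fun x hx => ?_
      rw [Finset.mem_filter] at hx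
      exact ⟨(hB a x).mp hx.1, hx.2 (Or.inl rfl)⟩
    · refine rzp4_cell hM p (hTM p hp) (by positivity) (α b) _ fun x hx => ?_
      rw [Finset.mem_filter] at hx
      exact ⟨(hB b x).mp hx.1, hx.2 (Or.inr rfl)⟩
    · intro i _ _
      refine rzp4_cell1 hM (hHd i) (α i) _ fun x hx => ?_
      rw [Finset.mem_filter] at hx
      exact (hB i x).mp hx.1
  have hcard3 : ∀ p ∈ T, ((Q p).card : ℝ) ≤
      E ^ (s + 2) * W * (3 * X * (Ideal.absNorm p.asIdeal : ℝ)⁻¹ +
        G a * G b * ((Ideal.absNorm p.asIdeal : ℝ) ^ 2)⁻¹) := by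
    intro p hp
    refine (hcard2 p hp).trans ?_
    have hN0 : (0 : ℝ) < Ideal.absNorm p.asIdeal := by exact_mod_cast rzp4_pos p
    have hNX := hTX p hp
    set ν : ℝ := (Ideal.absNorm p.asIdeal : ℝ)⁻¹ with hν
    have hν0 : 0 < ν := inv_pos.mpr hN0
    have h1 : 1 ≤ X * ν := by
      rw [hν, ← div_eq_mul_inv, one_le_div hN0]
      exact hNX
    have h2 : ((Ideal.absNorm p.asIdeal : ℝ) ^ 2)⁻¹ = ν ^ 2 := by rw [hν, inv_pow]
    rw [h2]
    have h3 : G a * ν ≤ X * ν := mul_le_mul_of_nonneg_right (hGX a (Or.inl rfl)) hν0.le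
    have h4 : G b * ν ≤ X * ν := mul_le_mul_of_nonneg_right (hGX b (Or.inr rfl)) hν0.le
    have h5 : (1 + G a * ν) * (1 + G b * ν) ≤ 3 * X * ν + G a * G b * ν ^ 2 := by nlinarith
    calc (E * (1 + G a * ν)) * (E * (1 + G b * ν)) * (E ^ s * W)
        = E ^ (s + 2) * W * ((1 + G a * ν) * (1 + G b * ν)) := by ring
      _ ≤ E ^ (s + 2) * W * (3 * X * ν + G a * G b * ν ^ 2) :=
          mul_le_mul_of_nonneg_left h5 (by positivity)
  have hS1 := hsum1 X hX1 T hTX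
  have hS2 := hsum2 T fun p hp r hr hrp => by
    by_contra hcon
    push Not at hcon
    apply hTM p hp
    have h1 : r ∣ M := (Nat.dvd_factorial hr.pos hcon).trans hYM
    obtain ⟨t, rfl⟩ := h1
    push_cast
    exact p.asIdeal.mul_mem_right _ hrp
  have hEs : E ^ s ≤ E ^ (s + 2) := pow_le_pow_right₀ hE1 (by omega)
  calc (((Fintype.piFinset B).filter fun u => ¬ Prim M u).card : ℝ)
      ≤ ((Z ∪ T.biUnion Q).card : ℝ) := by exact_mod_cast Finset.card_le_card hcov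
    _ ≤ (Z.card : ℝ) + ((T.biUnion Q).card : ℝ) := by exact_mod_cast Finset.card_union_le _ _
    _ ≤ (Z.card : ℝ) + ∑ p ∈ T, ((Q p).card : ℝ) := by
        have h1 : ((T.biUnion Q).card : ℝ) ≤ ∑ p ∈ T, ((Q p).card : ℝ) := by
          exact_mod_cast Finset.card_biUnion_le
        linarith
    _ ≤ E ^ (s + 2) * W + ∑ p ∈ T, E ^ (s + 2) * W *
          (3 * X * (Ideal.absNorm p.asIdeal : ℝ)⁻¹ +
            G a * G b * ((Ideal.absNorm p.asIdeal : ℝ) ^ 2)⁻¹) := by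
        refine add_le_add ?_ (Finset.sum_le_sum hcard3)
        refine hcard1.trans ?_
        rw [one_mul, one_mul]
        exact mul_le_mul_of_nonneg_right hEs hW0
    _ = E ^ (s + 2) * W * (1 + 3 * X * (∑ p ∈ T, (Ideal.absNorm p.asIdeal : ℝ)⁻¹) +
          G a * G b * ∑ p ∈ T, ((Ideal.absNorm p.asIdeal : ℝ) ^ 2)⁻¹) := by
        rw [← Finset.mul_sum, Finset.sum_add_distrib, ← Finset.mul_sum, ← Finset.mul_sum]
        ring
    _ ≤ E ^ (s + 2) * W * (1 + 3 * X * (C1 * (1 + Real.log X)) + G a * G b * (C2 / Y)) := by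
        refine mul_le_mul_of_nonneg_left ?_ (by positivity)
        have h1 : 3 * X * (∑ p ∈ T, (Ideal.absNorm p.asIdeal : ℝ)⁻¹) ≤
            3 * X * (C1 * (1 + Real.log X)) := mul_le_mul_of_nonneg_left hS1 (by linarith)
        have h2 : G a * G b * ∑ p ∈ T, ((Ideal.absNorm p.asIdeal : ℝ) ^ 2)⁻¹ ≤
            G a * G b * (C2 / Y) :=
          mul_le_mul_of_nonneg_left hS2 (mul_nonneg (hG0 a) (hG0 b))
        linarith

theorem prim_count {s : ℕ} (hs : 2 ≤ s) (d : Fin s → ℕ) (hd : ∀ i, 0 < d i) (M : ℕ)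
    (hM : 0 < M) (α : Fin s → 𝓞 F) :
    ∃ M' : ℕ, 0 < M' ∧ M ∣ M' ∧ ∃ (c H0 : ℝ), 0 < c ∧ 1 ≤ H0 ∧ ∀ H : ℝ, H0 ≤ H →
      c * H ^ (Module.finrank ℚ F * ∑ i, d i) ≤
        (Set.ncard {u | u ∈ ParD d M' α H ∧ Prim M' u} : ℝ) := by
  classical
  obtain ⟨c0, hc0, hbox⟩ := box_unif F
  obtain ⟨C1, hC1, hsum1⟩ := prime_sum F
  obtain ⟨C2, hC2, hsum2⟩ := prime_sum_sq F
  have hm0 : 0 < Module.finrank ℚ F := Module.finrank_pos
  have hE1 : (1 : ℝ) ≤ 5 ^ Module.finrank ℚ F := one_le_pow₀ (by norm_num)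
  set E : ℝ := 5 ^ Module.finrank ℚ F with hE
  obtain ⟨a, ha⟩ : ∃ a : Fin s, a.1 = 0 := ⟨⟨0, by omega⟩, rfl⟩
  obtain ⟨b, hb⟩ : ∃ b : Fin s, b.1 = 1 := ⟨⟨1, by omega⟩, rfl⟩
  have hab : a ≠ b := by
    rintro rfl
    omega
  have hc0s : 0 < c0 ^ s := pow_pos hc0 s
  obtain ⟨Y, hY⟩ := exists_nat_gt (4 * (E ^ (s + 2) * C2) / c0 ^ s)
  have hY0 : (0 : ℝ) < Y := lt_of_le_of_lt (by positivity) hY
  have hY1 : 1 ≤ Y := by exact_mod_cast hY0
  have hY2 : E ^ (s + 2) * (C2 / Y) ≤ c0 ^ s / 4 := by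
    rw [div_lt_iff₀ hc0s] at hY
    rw [← mul_div_assoc, div_le_iff₀ hY0]
    linarith
  set M' : ℕ := M * Y.factorial with hM'
  have hM'0 : 0 < M' := Nat.mul_pos hM (Nat.factorial_pos Y)
  have hM'r : (0 : ℝ) < M' := by exact_mod_cast hM'0
  choose Y0 hY01 hY0' using fun i => hbox M' hM'0 (α i)
  have hD1 : 1 ≤ Module.finrank ℚ F * (d a + d b) :=
    Nat.mul_pos hm0 (by have := hd a; omega)
  obtain ⟨H1, hH11, hfin⟩ := rzp4_final (K := E ^ (s + 2) * (1 + 3 * C1))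
    (L := c0 ^ s / 4 / ((M' : ℝ) ^ Module.finrank ℚ F * (M' : ℝ) ^ Module.finrank ℚ F))
    (by positivity) (by positivity) hD1
  refine ⟨M', hM'0, ⟨_, rfl⟩, c0 ^ s / 2 / (M' : ℝ) ^ (Module.finrank ℚ F * s),
    max (max H1 M') (∑ i, Y0 i), by positivity,
    hH11.trans ((le_max_left _ _).trans (le_max_left _ _)), fun H hH => ?_⟩
  have hHH1 : H1 ≤ H := ((le_max_left _ _).trans (le_max_left _ _)).trans hH
  have hHM : (M' : ℝ) ≤ H := ((le_max_right _ _).trans (le_max_left _ _)).trans hH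
  have hH1 : 1 ≤ H := hH11.trans hHH1
  have hHY : ∀ i, Y0 i ≤ H ^ d i := fun i => by
    calc Y0 i ≤ ∑ i, Y0 i :=
          Finset.single_le_sum (fun j _ => by linarith [hY01 j]) (Finset.mem_univ i)
      _ ≤ H := (le_max_right _ _).trans hH
      _ = H ^ 1 := (pow_one H).symm
      _ ≤ H ^ d i := pow_le_pow_right₀ hH1 (hd i)
  set B : Fin s → Finset (𝓞 F) := fun i => (hY0' i (H ^ d i) (hHY i)).1.toFinset with hB
  have hBmem : ∀ i x, x ∈ B i ↔
      (M' : 𝓞 F) ∣ x - α i ∧ ∀ v : F →+* ℂ, ‖v (x : F)‖ ≤ H ^ d i :=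
    fun i x => Set.Finite.mem_toFinset _
  set G : Fin s → ℝ := fun i => (H ^ d i / M') ^ Module.finrank ℚ F with hG
  have hG0 : ∀ i, 0 ≤ G i := fun i => by rw [hG]; positivity
  have hBcard : ∀ i, c0 * G i ≤ ((B i).card : ℝ) := fun i => by
    have h1 := (hY0' i (H ^ d i) (hHY i)).2
    rw [Set.ncard_eq_toFinset_card _ (hY0' i _ (hHY i)).1] at h1
    exact h1
  have hbad := rzp4_bad hd hab hM'0 α (C1 := C1) (C2 := C2) (Y := Y) (Dvd.intro_left _ rfl)
    hsum1 (hsum2 Y hY1) hHM B hBmem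
  have htot : c0 ^ s * ∏ i, G i ≤ ((Fintype.piFinset B).card : ℝ) := by
    rw [Fintype.card_piFinset, Nat.cast_prod]
    calc c0 ^ s * ∏ i, G i = ∏ i, (c0 * G i) := by
          rw [Finset.prod_mul_distrib, Finset.prod_const, Finset.card_univ, Fintype.card_fin]
      _ ≤ ∏ i, ((B i).card : ℝ) :=
          Finset.prod_le_prod (fun i _ => mul_nonneg hc0.le (hG0 i)) (fun i _ => hBcard i)
  have hset : {u | u ∈ ParD d M' α H ∧ Prim M' u} =
      (((Fintype.piFinset B).filter fun u => Prim M' u : Finset (Fin s → 𝓞 F)) :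
        Set (Fin s → 𝓞 F)) := by
    ext u
    rw [Finset.mem_coe, Finset.mem_filter, Fintype.mem_piFinset]
    simp only [hBmem]
    rfl
  rw [hset, Set.ncard_coe_finset]
  have hsplit := Finset.card_filter_add_card_filter_not (s := Fintype.piFinset B)
    (fun u => Prim M' u)
  have hsplit' : (((Fintype.piFinset B).filter fun u => Prim M' u).card : ℝ) +
      (((Fintype.piFinset B).filter fun u => ¬ Prim M' u).card : ℝ) =
        ((Fintype.piFinset B).card : ℝ) := by exact_mod_cast hsplit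
  have hGprod : ∏ i, G i = H ^ (Module.finrank ℚ F * ∑ i, d i) /
      (M' : ℝ) ^ (Module.finrank ℚ F * s) := by
    rw [hG, Finset.prod_pow, Finset.prod_div_distrib, Finset.prod_pow_eq_pow_sum,
      Finset.prod_const, Finset.card_univ, Fintype.card_fin, div_pow, ← pow_mul, ← pow_mul,
      mul_comm (∑ i, d i), mul_comm s]
  have hGab : ∏ i, G i = G a * G b * ∏ i ∈ (Finset.univ.erase a).erase b, G i := by
    rw [← Finset.mul_prod_erase Finset.univ G (Finset.mem_univ a),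
      ← Finset.mul_prod_erase (Finset.univ.erase a) G
        (Finset.mem_erase.2 ⟨hab.symm, Finset.mem_univ b⟩), ← mul_assoc]
  set W : ℝ := ∏ i ∈ (Finset.univ.erase a).erase b, G i with hW
  have hW0 : 0 ≤ W := Finset.prod_nonneg fun i _ => hG0 i
  have hGG : G a * G b = H ^ (Module.finrank ℚ F * (d a + d b)) /
      ((M' : ℝ) ^ Module.finrank ℚ F * (M' : ℝ) ^ Module.finrank ℚ F) := by
    rw [hG]
    dsimp only
    rw [div_pow, div_pow, div_mul_div_comm, ← pow_mul, ← pow_mul, ← pow_add]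
    congr 2
    ring
  have hfinH := hfin H hHH1
  have hL : c0 ^ s / 4 / ((M' : ℝ) ^ Module.finrank ℚ F * (M' : ℝ) ^ Module.finrank ℚ F) *
      H ^ (Module.finrank ℚ F * (d a + d b)) = c0 ^ s / 4 * (G a * G b) := by
    rw [hGG]
    ring
  rw [hL] at hfinH
  set D := Module.finrank ℚ F * (d a + d b) with hD
  set X : ℝ := H ^ (D - 1) with hX
  have hX1 : 1 ≤ X := one_le_pow₀ hH1
  have hlogH : 0 ≤ Real.log H := Real.log_nonneg hH1
  have hlogX : Real.log X ≤ D * Real.log H := by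
    rw [hX, Real.log_pow]
    refine mul_le_mul_of_nonneg_right ?_ hlogH
    exact_mod_cast Nat.sub_le _ _
  have hkey : E ^ (s + 2) * (1 + 3 * X * (C1 * (1 + Real.log X)) + G a * G b * (C2 / Y)) ≤
      c0 ^ s / 2 * (G a * G b) := by
    have h1 : 1 + 3 * X * (C1 * (1 + Real.log X)) ≤
        (1 + 3 * C1) * (1 + X * (1 + D * Real.log H)) := by
      have h2 : X * (1 + Real.log X) ≤ X * (1 + D * Real.log H) :=
        mul_le_mul_of_nonneg_left (by linarith) (by linarith)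
      have h3 : 0 ≤ X * (1 + D * Real.log H) := by positivity
      have h4 : C1 * (X * (1 + Real.log X)) ≤ C1 * (X * (1 + D * Real.log H)) :=
        mul_le_mul_of_nonneg_left h2 hC1.le
      nlinarith
    have h5 : E ^ (s + 2) * (1 + 3 * X * (C1 * (1 + Real.log X))) ≤ c0 ^ s / 4 * (G a * G b) := by
      refine le_trans ?_ hfinH
      calc E ^ (s + 2) * (1 + 3 * X * (C1 * (1 + Real.log X)))
          ≤ E ^ (s + 2) * ((1 + 3 * C1) * (1 + X * (1 + D * Real.log H))) :=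
            mul_le_mul_of_nonneg_left h1 (by positivity)
        _ = E ^ (s + 2) * (1 + 3 * C1) * (1 + X * (1 + D * Real.log H)) := by ring
    have h6 : E ^ (s + 2) * (G a * G b * (C2 / Y)) ≤ c0 ^ s / 4 * (G a * G b) := by
      calc E ^ (s + 2) * (G a * G b * (C2 / Y)) = (E ^ (s + 2) * (C2 / Y)) * (G a * G b) := by ring
        _ ≤ c0 ^ s / 4 * (G a * G b) :=
            mul_le_mul_of_nonneg_right hY2 (mul_nonneg (hG0 a) (hG0 b))
    rw [mul_add]
    linarith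
  have hbad' : (((Fintype.piFinset B).filter fun u => ¬ Prim M' u).card : ℝ) ≤
      c0 ^ s / 2 * ∏ i, G i := by
    refine hbad.trans ?_
    calc E ^ (s + 2) * W * (1 + 3 * X * (C1 * (1 + Real.log X)) + G a * G b * (C2 / Y))
        = (E ^ (s + 2) * (1 + 3 * X * (C1 * (1 + Real.log X)) + G a * G b * (C2 / Y))) * W := by
          ring
      _ ≤ c0 ^ s / 2 * (G a * G b) * W := mul_le_mul_of_nonneg_right hkey hW0
      _ = c0 ^ s / 2 * ∏ i, G i := by rw [hGab]; ring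
  have hend : c0 ^ s / 2 / (M' : ℝ) ^ (Module.finrank ℚ F * s) *
      H ^ (Module.finrank ℚ F * ∑ i, d i) = c0 ^ s / 2 * ∏ i, G i := by
    rw [hGprod]
    ring
  rw [hend]
  linarith

end Prims

end Pool.Agent.H13.RZ
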