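import Pool.Agent.H13.RG.MovPos
import Pool.Agent.H41.Rel.Defs

/-!
# Project RG: the statement without definitions
-/

set_option autoImplicit false

open NumberField

namespace Pool.Agent.H13.RZ

open Pool.Agent.H41.Rel Pool.Agent.H13.RG

/-- the number of classes depends only on the predicate -/
theorem pub_card_congr {α : Type} (P Q : α → Prop) (h : ∀ a, P a ↔ Q a) (r : α → α → Prop) :
    Nat.card (Quot (fun L L' : {a // P a} => r L.1 L'.1)) =
      Nat.card (Quot (fun L L' : {a // Q a} => r L.1 L'.1)) := by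
  have hPQ : P = Q := funext fun a => propext (h a)
  subst hPQ
  rfl

/-- membership in the wreath product, for a group acting through `π` -/
theorem pub_mem {G : Type} [Group G] {b n N : ℕ} (ε : Fin b × Fin n ≃ Fin N)
    (π : G →* Equiv.Perm (Fin n)) (H : Subgroup (Equiv.Perm (Fin b)))
    (τ : Equiv.Perm (Fin b × Fin n)) :
    (∃ η ∈ H, ∃ γ : Fin b → G, ∀ i j, τ (i, j) = (η i, π (γ i) j)) ↔
      (ε.symm.trans τ).trans ε ∈ wreath ε π.range H := by
  constructor
  · rintro ⟨η, hη, γ, h⟩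
    refine ⟨η, hη, fun i => π (γ i), fun i => ⟨γ i, rfl⟩, fun i j => ?_⟩
    rw [Equiv.trans_apply, Equiv.trans_apply, Equiv.symm_apply_apply, h]
  · rintro ⟨η, hη, γ, hγ, h⟩
    choose g hg using hγ
    refine ⟨η, hη, g, fun i j => ?_⟩
    have h1 := h i j
    rw [Equiv.trans_apply, Equiv.trans_apply, Equiv.symm_apply_apply] at h1
    rw [hg]
    exact ε.injective h1

/-- the condition on the group, with the points numbered by pairs -/
theorem pub_group {k Ω M : Type} [Field k] [Field Ω] [Field M] [Algebra k Ω] [Algebra k M]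
    {G : Type} [Group G] {b n N : ℕ} (ε : Fin b × Fin n ≃ Fin N)
    (π : G →* Equiv.Perm (Fin n)) (H : Subgroup (Equiv.Perm (Fin b))) :
    (∃ e : (M →ₐ[k] Ω) ≃ Fin N, ∀ τ : Equiv.Perm (Fin N), τ ∈ wreath ε π.range H ↔
      ∃ σ : Ω ≃ₐ[k] Ω, ∀ φ : M →ₐ[k] Ω, e (σ.toAlgHom.comp φ) = τ (e φ)) ↔
    (∃ e : (M →ₐ[k] Ω) ≃ Fin b × Fin n, ∀ τ : Equiv.Perm (Fin b × Fin n),
      (∃ η ∈ H, ∃ γ : Fin b → G, ∀ i j, τ (i, j) = (η i, π (γ i) j)) ↔
      ∃ σ : Ω ≃ₐ[k] Ω, ∀ φ : M →ₐ[k] Ω, e (σ.toAlgHom.comp φ) = τ (e φ)) := by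
  constructor
  · rintro ⟨e, he⟩
    refine ⟨e.trans ε.symm, fun τ => ?_⟩
    rw [pub_mem ε π H τ, he]
    refine exists_congr fun σ => forall_congr' fun φ => ?_
    rw [Equiv.trans_apply, Equiv.trans_apply, Equiv.trans_apply, Equiv.trans_apply]
    constructor
    · intro h
      rw [h, Equiv.symm_apply_apply]
    · intro h
      rw [← h, Equiv.apply_symm_apply]
  · rintro ⟨e, he⟩
    refine ⟨e.trans ε, fun τ => ?_⟩
    have h1 := he ((ε.trans τ).trans ε.symm)
    rw [pub_mem ε π H] at h1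
    have h2 : (ε.symm.trans ((ε.trans τ).trans ε.symm)).trans ε = τ := by
      ext x
      simp
    rw [h2] at h1
    rw [h1]
    refine exists_congr fun σ => forall_congr' fun φ => ?_
    rw [Equiv.trans_apply, Equiv.trans_apply, Equiv.trans_apply, Equiv.trans_apply]
    constructor
    · intro h
      rw [h, Equiv.apply_symm_apply]
    · intro h
      rw [← h, Equiv.symm_apply_apply]

/-- transitivity in plain words -/
theorem pub_trans {G : Type} [Group G] {n : ℕ} (hn : 2 ≤ n) (π : G →* Equiv.Perm (Fin n))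
    (h : ∀ i j, ∃ g, π g i = j) : MulAction.IsPretransitive π.range (Fin n) := by
  refine ⟨fun i j => ?_⟩
  obtain ⟨g, hg⟩ := h i j
  exact ⟨⟨π g, g, rfl⟩, hg⟩

end Pool.Agent.H13.RZ
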